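import Pool.Agent.Lib.MP_b38472_lc.Machine

/-!
Combinatorial analysis of the payment machine, part 1: local invariants.
-/

namespace Pool.Agent.SemConv

open Filter Topology

/-- Weight of a string. -/
noncomputable def wt (x : List Bool) : ℝ := (1 / 2 : ℝ) ^ x.length

lemma wt_pos (x : List Bool) : 0 < wt x := by unfold wt; positivity

lemma wt_nil : wt [] = 1 := by simp [wt]

lemma wt_append (x y : List Bool) : wt (x ++ y) = wt x * wt y := by
  simp [wt, pow_add]

lemma wt_le_one (x : List Bool) : wt x ≤ 1 := by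
  unfold wt; exact pow_le_one₀ (by norm_num) (by norm_num)

/-- Accumulated payment of a frame. -/
noncomputable def acc (F : Frame) : ℝ := (F.2.2.1 : ℝ) / 2 ^ F.2.2.2

/-- Payment below a node, as a real number. -/
noncomputable def eR (L : ℕ) (st : List Frame) : ℝ := ((pay L st).1 : ℝ) / 2 ^ (pay L st).2

lemma eR_nil (L : ℕ) : eR L [] = 1 := by simp [eR, pay]

lemma pay_cons (L : ℕ) (F : Frame) (st : List Frame) :
    pay L (F :: st) = (F.2.2.1 * 2 ^ ((pay L st).2 + (part L F.1).length)
      + (pay L st).1 * 2 ^ F.2.2.2, F.2.2.2 + (pay L st).2 + (part L F.1).length) := rfl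

lemma dyadic_aux (n m a b t : ℕ) :
    ((n * 2 ^ (b + t) + a * 2 ^ m : ℕ) : ℝ) / 2 ^ (m + b + t) =
      (n : ℝ) / 2 ^ m + (1 / 2 : ℝ) ^ t * ((a : ℝ) / 2 ^ b) := by
  have h1 : (2 : ℝ) ^ m ≠ 0 := by positivity
  have h2 : (2 : ℝ) ^ b ≠ 0 := by positivity
  have h3 : (2 : ℝ) ^ t ≠ 0 := by positivity
  push_cast
  rw [one_div, inv_pow, pow_add, pow_add, pow_add]
  field_simp

lemma eR_cons (L : ℕ) (F : Frame) (st : List Frame) :
    eR L (F :: st) = acc F + wt (part L F.1) * eR L st := by
  unfold eR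
  rw [pay_cons]
  exact dyadic_aux _ _ _ _ _

lemma acc_nonneg (F : Frame) : 0 ≤ acc F := by unfold acc; positivity

lemma eR_nonneg (L : ℕ) (st : List Frame) : 0 ≤ eR L st := by unfold eR; positivity

lemma acc_next (L : ℕ) (F : Frame) (st : List Frame) :
    acc (nextFrame L F (pay L st)) = acc F + wt (part L F.1) * eR L st := by
  unfold acc nextFrame wt eR
  exact dyadic_aux _ _ _ _ _

lemma next_fst (L : ℕ) (F : Frame) (r : ℕ × ℕ) : (nextFrame L F r).1 = F.1 + 1 := rfl

lemma next_flag (L : ℕ) (F : Frame) (st : List Frame) :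
    (nextFrame L F (pay L st)).2.1 = true ↔ F.1 = 0 ∧ 4 / 2 ^ L < eR L st := by
  unfold nextFrame eR
  simp only [Bool.and_eq_true, decide_eq_true_eq]
  have h1 : (0 : ℝ) < 2 ^ L := by positivity
  have h2 : (0 : ℝ) < 2 ^ (pay L st).2 := by positivity
  rw [div_lt_div_iff₀ h1 h2]
  constructor
  · rintro ⟨h, h'⟩
    exact ⟨h, by exact_mod_cast h'⟩
  · rintro ⟨h, h'⟩
    exact ⟨h, by exact_mod_cast h'⟩

/-- index transition -/
def nextk (l k : ℕ) (f : Bool) : ℕ := if f then k + l else k - 1

lemma idx_nil (l K : ℕ) : idx l K [] = K := rfl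

lemma idx_cons (l K : ℕ) (F : Frame) (st : List Frame) :
    idx l K (F :: st) = idx l (nextk l K F.2.1) st := rfl

lemma idx_append (l K : ℕ) (a b : List Frame) :
    idx l K (a ++ b) = idx l (idx l K a) b := by
  simp [idx, List.foldl_append]

lemma str_nil (L : ℕ) : str L [] = [] := rfl

lemma str_cons (L : ℕ) (F : Frame) (st : List Frame) :
    str L (F :: st) = part L F.1 ++ str L st := rfl

lemma str_append (L : ℕ) (a b : List Frame) : str L (a ++ b) = str L a ++ str L b := by
  simp [str]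

lemma eR_append (L : ℕ) (a b c : List Frame) :
    eR L (a ++ b) - eR L (a ++ c) = wt (str L a) * (eR L b - eR L c) := by
  induction a with
  | nil => simp [str_nil, wt_nil]
  | cons F a ih =>
    rw [List.cons_append, List.cons_append, eR_cons, eR_cons, str_cons, wt_append, mul_assoc,
      ← ih]
    ring

lemma eR_zeros (L k : ℕ) : eR L (List.replicate k zf) = wt (str L (List.replicate k zf)) := by
  induction k with
  | zero => simp [eR_nil, str_nil, wt_nil]
  | succ k ih =>
    rw [List.replicate_succ, eR_cons, str_cons, wt_append, ih]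
    simp [acc, zf]

lemma idx_zeros (l k : ℕ) : idx l k (List.replicate k zf) = 0 := by
  induction k with
  | zero => rfl
  | succ k ih =>
    rw [List.replicate_succ, idx_cons]
    simpa [nextk, zf] using ih

/-- partial sums of weights of the parts -/
noncomputable def W (L a : ℕ) : ℝ := ∑ b ∈ Finset.range a, wt (part L b)

/-- partial sums of `M` over the parts of a node -/
noncomputable def Msum (L : ℕ) (M : List Bool → ℝ) (z : List Bool) (a : ℕ) : ℝ :=
  ∑ b ∈ Finset.range a, M (z ++ part L b)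

lemma part_zero (L : ℕ) : part L 0 = List.replicate L false := by simp [part]

lemma part_succ (L a : ℕ) : part L (a + 1) = List.replicate (L - (a + 1)) false ++ [true] := by
  simp [part]

lemma W_succ (L a : ℕ) : W L (a + 1) = W L a + wt (part L a) := by
  simp [W, Finset.sum_range_succ]

lemma Msum_succ (L : ℕ) (M : List Bool → ℝ) (z : List Bool) (a : ℕ) :
    Msum L M z (a + 1) = Msum L M z a + M (z ++ part L a) := by
  simp [Msum, Finset.sum_range_succ]

lemma W_one (L : ℕ) : W L 1 = 1 / 2 ^ L := by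
  simp [W, part_zero, wt]

lemma W_two (L : ℕ) (hL : 1 ≤ L) : W L 2 = 2 / 2 ^ L := by
  rw [W_succ, W_one, part_succ, wt_append]
  simp only [wt, zero_add, List.length_replicate, List.length_singleton, one_div, pow_one]
  obtain ⟨n, rfl⟩ : ∃ n, L = n + 1 := ⟨L - 1, by omega⟩
  simp only [Nat.add_sub_cancel, pow_succ, inv_pow]
  have : (2 : ℝ) ^ n ≠ 0 := by positivity
  field_simp
  norm_num

lemma W_closed (L : ℕ) : ∀ j, j ≤ L → W L (j + 1) = (1 / 2 : ℝ) ^ (L - j) := by
  intro j
  induction j with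
  | zero => intro _; simp [W_one]
  | succ j ih =>
    intro hj
    rw [W_succ, ih (by omega), part_succ, wt_append]
    simp only [wt, List.length_replicate, List.length_singleton]
    have h : L - j = (L - (j + 1)) + 1 := by omega
    rw [h, pow_succ]
    ring

lemma W_top (L : ℕ) : W L (L + 1) = 1 := by
  rw [W_closed L L le_rfl]; simp

lemma W_mono (L : ℕ) {a b : ℕ} (h : a ≤ b) : W L a ≤ W L b := by
  unfold W
  exact Finset.sum_le_sum_of_subset_of_nonneg (Finset.range_mono h) fun i _ _ => (wt_pos _).le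

lemma W_add_le (L a : ℕ) (h : a ≤ L) : W L a + wt (part L a) ≤ 1 := by
  rw [← W_succ, ← W_top L]; exact W_mono L (by omega)

lemma Msum_le {M : List Bool → ℝ} (hM : IsSemimeasure M) (L : ℕ) (z : List Bool) :
    ∀ j, j ≤ L → Msum L M z (j + 1) ≤ M (z ++ List.replicate (L - j) false) := by
  intro j
  induction j with
  | zero => intro _; simp [Msum, part_zero]
  | succ j ih =>
    intro hj
    rw [Msum_succ]
    have h1 := ih (by omega)
    have h : L - j = (L - (j + 1)) + 1 := by omega
    have h2 := hM.split (z ++ List.replicate (L - (j + 1)) false)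
    rw [part_succ]
    have e1 : z ++ List.replicate (L - j) false =
        z ++ List.replicate (L - (j + 1)) false ++ [false] := by
      rw [h, List.replicate_succ', List.append_assoc]
    rw [e1] at h1
    rw [← List.append_assoc]
    linarith

lemma Msum_top {M : List Bool → ℝ} (hM : IsSemimeasure M) (L : ℕ) (z : List Bool) :
    Msum L M z (L + 1) ≤ M z := by
  have := Msum_le hM L z L le_rfl
  simpa using this

/-- Requirements on the sequence of thresholds. -/
structure TauOK (L l : ℕ) (τ : ℕ → ℝ) : Prop where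
  zero : τ 0 = 1
  le_one : ∀ k, τ k ≤ 1
  nonneg : ∀ k, 0 ≤ τ k
  t1 : ∀ k, 4 / 2 ^ L / 2 ^ L + (1 - 1 / 2 ^ L) * τ k ≤ τ (k + 1)
  t2 : ∀ k, (1 - 1 / 2 ^ L) * τ k + τ (k + 1 + l) / 2 ^ L ≤ τ (k + 1)

/-- Local condition on a frame. -/
structure FrameOK (L l : ℕ) (τ : ℕ → ℝ) (M : List Bool → ℝ) (k : ℕ) (z : List Bool)
    (F : Frame) : Prop where
  le : F.1 ≤ L
  zero : F.1 = 0 → F.2.1 = false ∧ acc F = 0
  sum : 1 ≤ F.1 → 2 * wt z * (W L F.1 + acc F) < Msum L M z F.1
  bound : 1 ≤ F.1 → F.2.1 = false → acc F + (1 - W L F.1) * τ (k - 1) ≤ τ k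
  jump : F.2.1 = true → F.1 = 1 ∧ 4 / 2 ^ L / 2 ^ L < acc F ∧ acc F ≤ τ (k - 1) / 2 ^ L

/-- All frames are fine. -/
def GoodPre (L l : ℕ) (τ : ℕ → ℝ) (M : List Bool → ℝ) : ℕ → List Bool → List Frame → Prop
  | _, _, [] => True
  | k, z, F :: st => 1 ≤ k ∧ FrameOK L l τ M k z F ∧
      GoodPre L l τ M (nextk l k F.2.1) (z ++ part L F.1) st

section

variable {L l : ℕ} {τ : ℕ → ℝ} {M : List Bool → ℝ}

lemma goodPre_append (k : ℕ) (z : List Bool) (a b : List Frame) :
    GoodPre L l τ M k z (a ++ b) ↔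
      GoodPre L l τ M k z a ∧ GoodPre L l τ M (idx l k a) (z ++ str L a) b := by
  induction a generalizing k z with
  | nil => simp [GoodPre, idx_nil, str_nil]
  | cons F a ih =>
    simp only [List.cons_append, GoodPre, ih, idx_cons, str_cons, List.append_assoc]
    tauto

lemma goodPre_zeros : ∀ (k : ℕ) (z : List Bool),
    GoodPre L l τ M k z (List.replicate k zf) := by
  intro k
  induction k with
  | zero => intro z; simp [GoodPre]
  | succ k ih =>
    intro z
    rw [List.replicate_succ]
    refine ⟨by omega, ?_, ?_⟩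
    · constructor
      · simp [zf]
      · intro _; simp [zf, acc]
      · intro h; simp [zf] at h
      · intro h; simp [zf] at h
      · intro h; simp [zf] at h
    · simpa [nextk, zf] using ih _

lemma wt_part_zero : wt (part L 0) = 1 / 2 ^ L := by simp [part_zero, wt]

lemma wt_part_one (hL : 1 ≤ L) : wt (part L 1) = 1 / 2 ^ L := by
  have h1 := W_two L hL
  rw [W_succ, W_one] at h1
  have : wt (part L 1) = 2 / 2 ^ L - 1 / 2 ^ L := by linarith
  rw [this]; ring

lemma one_div_le_half (hL : 1 ≤ L) : (1 : ℝ) / 2 ^ L ≤ 1 / 2 := by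
  have : (2 : ℝ) ^ 1 ≤ 2 ^ L := pow_le_pow_right₀ (by norm_num) hL
  rw [pow_one] at this
  exact one_div_le_one_div_of_le (by norm_num) this

/-- The payment below a node of index `k` is at most `τ k`. -/
lemma eR_le (hL : 1 ≤ L) (hτ : TauOK L l τ) : ∀ (st : List Frame) (k : ℕ) (z : List Bool),
    GoodPre L l τ M k z st → idx l k st = 0 → eR L st ≤ τ k := by
  intro st
  induction st with
  | nil =>
    intro k z _ h
    rw [idx_nil] at h
    subst h
    rw [eR_nil, hτ.zero]
  | cons F st ih =>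
    intro k z h hi
    obtain ⟨hk, hF, hg⟩ := h
    rw [idx_cons] at hi
    have h1 := ih _ _ hg hi
    rw [eR_cons]
    obtain ⟨k, rfl⟩ : ∃ k', k = k' + 1 := ⟨k - 1, by omega⟩
    have hN : (1 : ℝ) / 2 ^ L ≤ 1 / 2 := one_div_le_half hL
    have hN0 : (0 : ℝ) < 1 / 2 ^ L := by positivity
    have t2 := hτ.t2 k
    have n1 := hτ.nonneg k
    have n2 := hτ.nonneg (k + 1 + l)
    have n3 : 0 ≤ τ (k + 1 + l) / 2 ^ L := by positivity
    rcases Nat.eq_zero_or_pos F.1 with ha | ha
    · obtain ⟨hf, hacc⟩ := hF.zero ha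
      rw [hacc, ha, wt_part_zero, zero_add]
      rw [hf] at h1
      simp only [nextk, Bool.false_eq_true, if_false, Nat.add_sub_cancel] at h1
      have : 1 / 2 ^ L * eR L st ≤ 1 / 2 ^ L * τ k := mul_le_mul_of_nonneg_left h1 hN0.le
      nlinarith
    · cases hf : F.2.1 with
      | false =>
        rw [hf] at h1
        simp only [nextk, Bool.false_eq_true, if_false, Nat.add_sub_cancel] at h1
        have hb := hF.bound ha hf
        simp only [Nat.add_sub_cancel] at hb
        have hw := W_add_le L F.1 hF.le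
        have hw0 := wt_pos (part L F.1)
        have : wt (part L F.1) * eR L st ≤ wt (part L F.1) * τ k :=
          mul_le_mul_of_nonneg_left h1 hw0.le
        nlinarith
      | true =>
        rw [hf] at h1
        simp only [nextk, if_true] at h1
        obtain ⟨ha1, _, hb⟩ := hF.jump hf
        simp only [Nat.add_sub_cancel] at hb
        rw [ha1, wt_part_one hL]
        have : 1 / 2 ^ L * eR L st ≤ 1 / 2 ^ L * τ (k + 1 + l) :=
          mul_le_mul_of_nonneg_left h1 hN0.le
        have e1 : τ k / 2 ^ L = 1 / 2 ^ L * τ k := by ring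
        have e2 : τ (k + 1 + l) / 2 ^ L = 1 / 2 ^ L * τ (k + 1 + l) := by ring
        rw [e1] at hb
        rw [e2] at t2 n3
        nlinarith

/-- If the current child is a jump child, the payment is at most `2 / 2^L`. -/
lemma eR_le_jump (hL : 1 ≤ L) (hτ : TauOK L l τ) (F : Frame) (st : List Frame) (k : ℕ)
    (z : List Bool) (h : GoodPre L l τ M k z (F :: st)) (hi : idx l k (F :: st) = 0)
    (hf : F.2.1 = true) : eR L (F :: st) ≤ 2 / 2 ^ L := by
  obtain ⟨hk, hF, hg⟩ := h
  rw [idx_cons] at hi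
  have h1 := (eR_le hL hτ _ _ _ hg hi).trans (hτ.le_one _)
  rw [eR_cons]
  obtain ⟨ha1, _, hb⟩ := hF.jump hf
  rw [ha1, wt_part_one hL]
  have hN0 : (0 : ℝ) < 1 / 2 ^ L := by positivity
  have h2 := hτ.le_one (k - 1)
  have e1 : τ (k - 1) / 2 ^ L = 1 / 2 ^ L * τ (k - 1) := by ring
  have e2 : (2 : ℝ) / 2 ^ L = 2 * (1 / 2 ^ L) := by ring
  rw [e1] at hb
  rw [e2]
  nlinarith

/-- The new frame satisfies the local condition. -/
lemma frameOK_next (hL : 1 ≤ L) (hτ : TauOK L l τ) (F : Frame) (st : List Frame) (k : ℕ)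
    (z : List Bool) (h : GoodPre L l τ M k z (F :: st)) (hi : idx l k (F :: st) = 0)
    (ha : F.1 < L) (hc : 2 * wt (z ++ part L F.1) * (1 + eR L st) < M (z ++ part L F.1)) :
    FrameOK L l τ M k z (nextFrame L F (pay L st)) := by
  obtain ⟨hk, hF, hg⟩ := h
  rw [idx_cons] at hi
  have h1 := eR_le hL hτ _ _ _ hg hi
  obtain ⟨k, rfl⟩ : ∃ k', k = k' + 1 := ⟨k - 1, by omega⟩
  have hN : (1 : ℝ) / 2 ^ L ≤ 1 / 2 := one_div_le_half hL
  have hN0 : (0 : ℝ) < 1 / 2 ^ L := by positivity
  have h0 := eR_nonneg L st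
  rw [wt_append] at hc
  have hsum : 2 * wt z * (W L (F.1 + 1) + (acc F + wt (part L F.1) * eR L st)) <
      Msum L M z (F.1 + 1) := by
    rw [Msum_succ, W_succ]
    rcases Nat.eq_zero_or_pos F.1 with ha | ha
    · have hacc := (hF.zero ha).2
      rw [hacc]
      rw [ha] at hc ⊢
      simp only [W, Msum, Finset.range_zero, Finset.sum_empty] at *
      linarith
    · have := hF.sum ha
      linarith
  have t1 := hτ.t1 k
  have t2 := hτ.t2 k
  have e0 : (4 : ℝ) / 2 ^ L / 2 ^ L = 1 / 2 ^ L * (4 / 2 ^ L) := by ring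
  have e1 : τ k / 2 ^ L = 1 / 2 ^ L * τ k := by ring
  have e2 : τ (k + 1 + l) / 2 ^ L = 1 / 2 ^ L * τ (k + 1 + l) := by ring
  constructor
  · rw [next_fst]; omega
  · rw [next_fst]; intro h; omega
  · intro _
    rw [next_fst, acc_next]
    exact hsum
  · intro _ hf
    rw [next_fst, acc_next, Nat.add_sub_cancel]
    rcases Nat.eq_zero_or_pos F.1 with ha | ha
    · -- new child is child 1, not a jump
      have hacc := (hF.zero ha).2
      have hle : eR L st ≤ 4 / 2 ^ L := by
        by_contra hlt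
        push Not at hlt
        have := (next_flag L F st).2 ⟨ha, hlt⟩
        rw [this] at hf
        exact absurd hf (by simp)
      rw [hacc, ha, wt_part_zero, zero_add, zero_add, W_one]
      rw [e0] at t1
      have : 1 / 2 ^ L * eR L st ≤ 1 / 2 ^ L * (4 / 2 ^ L) :=
        mul_le_mul_of_nonneg_left hle hN0.le
      linarith
    · cases hf' : F.2.1 with
      | false =>
        rw [hf'] at h1
        simp only [nextk, Bool.false_eq_true, if_false, Nat.add_sub_cancel] at h1
        have hb := hF.bound ha hf'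
        simp only [Nat.add_sub_cancel] at hb
        have hw0 := wt_pos (part L F.1)
        have : wt (part L F.1) * eR L st ≤ wt (part L F.1) * τ k :=
          mul_le_mul_of_nonneg_left h1 hw0.le
        rw [W_succ]
        linarith
      | true =>
        rw [hf'] at h1
        simp only [nextk, if_true] at h1
        obtain ⟨ha1, _, hb⟩ := hF.jump hf'
        simp only [Nat.add_sub_cancel] at hb
        rw [ha1, wt_part_one hL, W_two L hL]
        have : 1 / 2 ^ L * eR L st ≤ 1 / 2 ^ L * τ (k + 1 + l) :=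
          mul_le_mul_of_nonneg_left h1 hN0.le
        rw [e1] at hb
        rw [e2] at t2
        have e3 : (2 : ℝ) / 2 ^ L = 2 * (1 / 2 ^ L) := by ring
        rw [e3]
        nlinarith
  · intro hf
    obtain ⟨ha, hlt⟩ := (next_flag L F st).1 hf
    obtain ⟨hf', hacc⟩ := hF.zero ha
    rw [hf'] at h1
    simp only [nextk, Bool.false_eq_true, if_false, Nat.add_sub_cancel] at h1
    rw [next_fst, acc_next, Nat.add_sub_cancel, ha, hacc, wt_part_zero, zero_add, zero_add]
    refine ⟨rfl, ?_, ?_⟩
    · rw [e0]; exact mul_lt_mul_of_pos_left hlt hN0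
    · rw [e1]; exact mul_le_mul_of_nonneg_left h1 hN0.le

end

end Pool.Agent.SemConv
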