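import Pool.Agent.Lib.MP_b38472_lc.Machine

/-!
Computability of the payment machine.
-/

namespace Pool.Agent.SemConv

section prim

variable {α : Type*} [Primcodable α]

lemma prim_pow {f g : α → ℕ} (hf : Primrec f) (hg : Primrec g) :
    Primrec fun a => f a ^ g a :=
  (Primrec₂.unpaired'.1 Nat.Primrec.pow).comp hf hg

lemma prim_two_pow {g : α → ℕ} (hg : Primrec g) : Primrec fun a => 2 ^ g a :=
  prim_pow (Primrec.const 2) hg

lemma prim_add {f g : α → ℕ} (hf : Primrec f) (hg : Primrec g) :
    Primrec fun a => f a + g a := Primrec.nat_add.comp hf hg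

lemma prim_sub {f g : α → ℕ} (hf : Primrec f) (hg : Primrec g) :
    Primrec fun a => f a - g a := Primrec.nat_sub.comp hf hg

lemma prim_mul {f g : α → ℕ} (hf : Primrec f) (hg : Primrec g) :
    Primrec fun a => f a * g a := Primrec.nat_mul.comp hf hg

lemma prim_lt {f g : α → ℕ} (hf : Primrec f) (hg : Primrec g) :
    Primrec fun a => decide (f a < g a) :=
  (Primrec.nat_lt.comp hf hg).decide

lemma prim_eq {β : Type*} [Primcodable β] [DecidableEq β] {f g : α → β} (hf : Primrec f)
    (hg : Primrec g) : Primrec fun a => decide (f a = g a) :=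
  (PrimrecRel.comp Primrec.eq hf hg).decide

lemma prim_and {f g : α → Bool} (hf : Primrec f) (hg : Primrec g) :
    Primrec fun a => (f a && g a) := Primrec.and.comp hf hg

lemma prim_replicate {β : Type*} [Primcodable β] (b : β) {f : α → ℕ} (hf : Primrec f) :
    Primrec fun a => List.replicate (f a) b :=
  (Primrec.list_map (Primrec.list_range.comp hf) (Primrec.const b).to₂).of_eq fun a => by
    simp [List.map_const']

lemma prim_length {β : Type*} [Primcodable β] {f : α → List β} (hf : Primrec f) :
    Primrec fun a => (f a).length := Primrec.list_length.comp hf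

lemma prim_part {f g : α → ℕ} (hf : Primrec f) (hg : Primrec g) :
    Primrec fun a => part (f a) (g a) := by
  have h1 : Primrec fun a => bif decide (g a = 0) then List.replicate (f a) false
      else List.replicate (f a - g a) false ++ [true] :=
    Primrec.cond (prim_eq hg (Primrec.const 0)) (prim_replicate false hf)
      (Primrec.list_append.comp (prim_replicate false (prim_sub hf hg)) (Primrec.const [true]))
  refine h1.of_eq fun a => ?_
  unfold part
  by_cases h : g a = 0 <;> simp [h]

lemma prim_str {f : α → ℕ} {g : α → List Frame} (hf : Primrec f) (hg : Primrec g) :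
    Primrec fun a => str (f a) (g a) :=
  Primrec.list_flatMap hg
    (prim_part (hf.comp Primrec.fst) (Primrec.fst.comp Primrec.snd)).to₂

lemma prim_idx {f k : α → ℕ} {g : α → List Frame} (hf : Primrec f) (hk : Primrec k)
    (hg : Primrec g) : Primrec fun a => idx (f a) (k a) (g a) := by
  have h1 : Primrec fun a => (g a).foldl (fun k F => bif F.2.1 then k + f a else k - 1) (k a) := by
    refine Primrec.list_foldl (h := fun a (p : ℕ × Frame) => bif p.2.2.1 then p.1 + f a else p.1 - 1)
      hg hk ?_
    refine Primrec₂.mk ?_
    refine Primrec.cond ?_ ?_ ?_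
    · exact Primrec.fst.comp (Primrec.snd.comp (Primrec.snd.comp Primrec.snd))
    · exact prim_add (Primrec.fst.comp Primrec.snd) (hf.comp Primrec.fst)
    · exact prim_sub (Primrec.fst.comp Primrec.snd) (Primrec.const 1)
  refine h1.of_eq fun a => ?_
  unfold idx
  congr 1
  funext k F
  cases F.2.1 <;> rfl

lemma prim_pay {f : α → ℕ} {g : α → List Frame} (hf : Primrec f) (hg : Primrec g) :
    Primrec fun a => pay (f a) (g a) := by
  have h1 : Primrec fun a => (g a).foldr (fun F r =>
      (F.2.2.1 * 2 ^ (r.2 + (part (f a) F.1).length) + r.1 * 2 ^ F.2.2.2,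
        F.2.2.2 + r.2 + (part (f a) F.1).length)) ((1, 0) : ℕ × ℕ) := by
    refine Primrec.list_foldr (h := fun a (p : Frame × (ℕ × ℕ)) =>
      (p.1.2.2.1 * 2 ^ (p.2.2 + (part (f a) p.1.1).length) + p.2.1 * 2 ^ p.1.2.2.2,
        p.1.2.2.2 + p.2.2 + (part (f a) p.1.1).length)) hg (Primrec.const (1, 0)) ?_
    refine Primrec₂.mk ?_
    have hF : Primrec fun x : α × (Frame × (ℕ × ℕ)) => x.2.1 := Primrec.fst.comp Primrec.snd
    have hr : Primrec fun x : α × (Frame × (ℕ × ℕ)) => x.2.2 := Primrec.snd.comp Primrec.snd
    have hlen : Primrec fun x : α × (Frame × (ℕ × ℕ)) => (part (f x.1) x.2.1.1).length :=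
      prim_length (prim_part (hf.comp Primrec.fst) (Primrec.fst.comp hF))
    have hn : Primrec fun x : α × (Frame × (ℕ × ℕ)) => x.2.1.2.2.1 :=
      Primrec.fst.comp (Primrec.snd.comp (Primrec.snd.comp hF))
    have hm : Primrec fun x : α × (Frame × (ℕ × ℕ)) => x.2.1.2.2.2 :=
      Primrec.snd.comp (Primrec.snd.comp (Primrec.snd.comp hF))
    refine Primrec.pair ?_ ?_
    · exact prim_add (prim_mul hn (prim_two_pow (prim_add (Primrec.snd.comp hr) hlen)))
        (prim_mul (Primrec.fst.comp hr) (prim_two_pow hm))
    · exact prim_add (prim_add hm (Primrec.snd.comp hr)) hlen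
  exact h1

lemma prim_nextFrame {f : α → ℕ} {g : α → Frame} {r : α → ℕ × ℕ} (hf : Primrec f)
    (hg : Primrec g) (hr : Primrec r) : Primrec fun a => nextFrame (f a) (g a) (r a) := by
  unfold nextFrame
  have hlen : Primrec fun x => (part (f x) (g x).1).length :=
    prim_length (prim_part hf (Primrec.fst.comp hg))
  have hn : Primrec fun x => (g x).2.2.1 := Primrec.fst.comp (Primrec.snd.comp (Primrec.snd.comp hg))
  have hm : Primrec fun x => (g x).2.2.2 := Primrec.snd.comp (Primrec.snd.comp (Primrec.snd.comp hg))
  refine Primrec.pair (prim_add (Primrec.fst.comp hg) (Primrec.const 1)) (Primrec.pair ?_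
    (Primrec.pair ?_ ?_))
  · exact prim_and (prim_eq (Primrec.fst.comp hg) (Primrec.const 0))
      (prim_lt (prim_mul (Primrec.const 4) (prim_two_pow (Primrec.snd.comp hr)))
        (prim_mul (Primrec.fst.comp hr) (prim_two_pow hf)))
  · exact prim_add (prim_mul hn (prim_two_pow (prim_add (Primrec.snd.comp hr) hlen)))
      (prim_mul (Primrec.fst.comp hr) (prim_two_pow hm))
  · exact prim_add (prim_add hm (Primrec.snd.comp hr)) hlen

lemma prim_take {β : Type*} [Primcodable β] {f : α → ℕ} {g : α → List β} (hf : Primrec f)
    (hg : Primrec g) : Primrec fun a => (g a).take (f a) := Primrec.list_take.comp hf hg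

lemma prim_drop {β : Type*} [Primcodable β] {f : α → ℕ} {g : α → List β} (hf : Primrec f)
    (hg : Primrec g) : Primrec fun a => (g a).drop (f a) := Primrec.list_drop.comp hf hg

lemma prim_newStack {f l k i : α → ℕ} {st : α → List Frame} {F : α → Frame} (hf : Primrec f)
    (hl : Primrec l) (hk : Primrec k) (hst : Primrec st) (hi : Primrec i) (hF : Primrec F) :
    Primrec fun a => newStack (f a) (l a) (k a) (st a) (i a) (F a) := by
  unfold newStack
  have h1 : Primrec fun a => (st a).take (i a) ++
      [nextFrame (f a) (F a) (pay (f a) ((st a).drop (i a + 1)))] :=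
    Primrec.list_append.comp (prim_take hi hst)
      (Primrec.list_cons.comp (prim_nextFrame hf hF
        (prim_pay hf (prim_drop (prim_add hi (Primrec.const 1)) hst))) (Primrec.const []))
  exact Primrec.list_append.comp h1 (prim_replicate zf (prim_idx hl hk h1))

lemma prim_advance {f l k i : α → ℕ} {st : α → List Frame} (hf : Primrec f)
    (hl : Primrec l) (hk : Primrec k) (hst : Primrec st) (hi : Primrec i) :
    Primrec fun a => advance (f a) (l a) (k a) (st a) (i a) := by
  unfold advance
  refine Primrec.option_bind (Primrec.list_getElem?.comp hst hi) ?_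
  refine Primrec₂.mk ?_
  refine Primrec.cond (prim_lt (Primrec.fst.comp Primrec.snd) (hf.comp Primrec.fst)) ?_
    (Primrec.const none)
  exact Primrec.option_some.comp (prim_newStack (hf.comp Primrec.fst) (hl.comp Primrec.fst)
    (hk.comp Primrec.fst) (hst.comp Primrec.fst) (hi.comp Primrec.fst) Primrec.snd)

lemma prim_init {f k : α → ℕ} (hf : Primrec f) (hk : Primrec k) :
    Primrec fun a => init (f a) (k a) := by
  unfold init
  exact Primrec.pair (prim_replicate zf hk)
    (Primrec.list_cons.comp (prim_str hf (prim_replicate zf hk)) (Primrec.const []))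

end prim

section comp

variable {α : Type*} [Primcodable α]

lemma comp_least {c : α → ℕ → Bool} {n : α → ℕ} (hc : Computable₂ c) (hn : Computable n) :
    Computable fun a => least (c a) (n a) := by
  have h1 : Computable fun a => Nat.rec (motive := fun _ => Option ℕ) none
      (fun y IH => Option.casesOn IH (bif c a y then some y else none) some) (n a) := by
    refine Computable.nat_rec (h := fun a (p : ℕ × Option ℕ) =>
      Option.casesOn p.2 (bif c a p.1 then some p.1 else none) some) hn (Computable.const none) ?_
    refine Computable₂.mk ?_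
    have hy : Computable fun x : α × (ℕ × Option ℕ) => x.2.1 := Computable.fst.comp Computable.snd
    refine Computable.option_casesOn (Computable.snd.comp Computable.snd) ?_ ?_
    · exact Computable.cond (hc.comp Computable.fst hy) (Computable.option_some.comp hy)
        (Computable.const none)
    · exact (Computable.option_some.comp Computable.snd).to₂
  refine h1.of_eq fun a => ?_
  induction n a with
  | zero => rfl
  | succ n ih => simp only [least]; rw [← ih]

lemma comp_stepOpt {L l k : α → ℕ} {c : α → ℕ → Bool} {st : α → List Frame} (hL : Primrec L)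
    (hl : Primrec l) (hk : Primrec k) (hc : Computable₂ c) (hst : Computable st) :
    Computable fun a => stepOpt (L a) (l a) (k a) (c a) (st a) := by
  unfold stepOpt
  refine Computable.option_bind (comp_least hc
    (Computable.succ.comp (Computable.list_length.comp hst))) ?_
  refine Computable₂.mk ?_
  refine Computable.nat_casesOn Computable.snd (Computable.const none) ?_
  refine Computable₂.mk ?_
  have h := (prim_advance (α := (ℕ × ℕ × ℕ) × (List Frame × ℕ))
    (f := fun x => x.1.1) (l := fun x => x.1.2.1) (k := fun x => x.1.2.2)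
    (st := fun x => x.2.1) (i := fun x => x.2.2)
    (Primrec.fst.comp Primrec.fst) (Primrec.fst.comp (Primrec.snd.comp Primrec.fst))
    (Primrec.snd.comp (Primrec.snd.comp Primrec.fst)) (Primrec.fst.comp Primrec.snd)
    (Primrec.snd.comp Primrec.snd)).to_comp
  have hfst : Computable fun x : (α × ℕ) × ℕ => x.1.1 := Computable.fst.comp Computable.fst
  exact h.comp (Computable.pair (Computable.pair (hL.to_comp.comp hfst)
    (Computable.pair (hl.to_comp.comp hfst) (hk.to_comp.comp hfst)))
    (Computable.pair (hst.comp hfst) Computable.snd))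

lemma comp_step {L l k : α → ℕ} {c : α → ℕ → Bool} {σ : α → List Frame × List (List Bool)}
    (hL : Primrec L) (hl : Primrec l) (hk : Primrec k) (hc : Computable₂ c) (hσ : Computable σ) :
    Computable fun a => step (L a) (l a) (k a) (c a) (σ a) := by
  unfold step
  refine Computable.option_casesOn (comp_stepOpt hL hl hk hc (Computable.fst.comp hσ)) hσ ?_
  refine Computable₂.mk ?_
  have h := (prim_str (α := ℕ × List Frame) (f := fun x => x.1) (g := fun x => x.2)
    Primrec.fst Primrec.snd).to_comp
  refine Computable.pair Computable.snd (Computable.list_cons.comp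
    (h.comp (Computable.pair (hL.to_comp.comp Computable.fst) Computable.snd))
    (Computable.snd.comp (hσ.comp Computable.fst)))

lemma comp_run {L l k : α → ℕ} {c : α → ℕ → List Frame → ℕ → Bool} {s : α → ℕ}
    (hL : Primrec L) (hl : Primrec l) (hk : Primrec k)
    (hc : Computable fun x : α × (ℕ × (List Frame × ℕ)) => c x.1 x.2.1 x.2.2.1 x.2.2.2)
    (hs : Computable s) :
    Computable fun a => run (L a) (l a) (k a) (c a) (s a) := by
  have h1 : Computable fun a => Nat.rec (motive := fun _ => List Frame × List (List Bool))
      (init (L a) (k a)) (fun y IH => step (L a) (l a) (k a) (c a y IH.1) IH) (s a) := by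
    refine Computable.nat_rec (h := fun a (p : ℕ × (List Frame × List (List Bool))) =>
      step (L a) (l a) (k a) (c a p.1 p.2.1) p.2) hs (prim_init hL hk).to_comp ?_
    refine Computable₂.mk ?_
    refine comp_step (hL.comp Primrec.fst) (hl.comp Primrec.fst) (hk.comp Primrec.fst) ?_
      (Computable.snd.comp Computable.snd)
    refine Computable₂.mk ?_
    have hx : Computable fun x : (α × (ℕ × (List Frame × List (List Bool)))) × ℕ => x.1 :=
      Computable.fst
    exact hc.comp (Computable.pair (Computable.fst.comp hx)
      (Computable.pair (Computable.fst.comp (Computable.snd.comp hx))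
        (Computable.pair (Computable.fst.comp (Computable.snd.comp (Computable.snd.comp hx)))
          Computable.snd)))
  refine h1.of_eq fun a => ?_
  induction s a with
  | zero => rfl
  | succ n ih => simp only [run]; rw [← ih]

end comp

end Pool.Agent.SemConv
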