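import Mathlib

/-!
Basic definitions: semimeasures on binary strings, lower semicomputability, universality,
Martin-Löf randomness with respect to the fair coin measure.
-/

namespace Pool.Agent.SemConv

open Filter Topology MeasureTheory

/-- A semimeasure on the set of finite binary strings, normalised by `M [] ≤ 1`. -/
structure IsSemimeasure (M : List Bool → ℝ) : Prop where
  nonneg : ∀ x, 0 ≤ M x
  root_le_one : M [] ≤ 1
  split : ∀ x, M (x ++ [false]) + M (x ++ [true]) ≤ M x

/-- `M` is lower semicomputable: there is a computable family of rationals `p x t / q x t`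
(integer numerator, positive natural denominator), nondecreasing in `t`, with limit `M x`. -/
def LowerSemicomputable (M : List Bool → ℝ) : Prop :=
  ∃ (p : List Bool → ℕ → ℤ) (q : List Bool → ℕ → ℕ), Computable₂ p ∧ Computable₂ q ∧
    (∀ x t, 0 < q x t) ∧ (∀ x, Monotone fun t => (p x t : ℝ) / (q x t : ℝ)) ∧
    ∀ x, Tendsto (fun t => (p x t : ℝ) / (q x t : ℝ)) atTop (𝓝 (M x))

/-- `M` is a universal lower semicomputable semimeasure: it dominates every lower semicomputable
semimeasure up to a positive multiplicative constant. -/
def IsUniversal (M : List Bool → ℝ) : Prop :=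
  IsSemimeasure M ∧ LowerSemicomputable M ∧
    ∀ ν : List Bool → ℝ, IsSemimeasure ν → LowerSemicomputable ν → ∃ c > 0, ∀ x, c * ν x ≤ M x

/-- The string of the first `n` bits of the sequence `ω`. -/
def pre (ω : ℕ → Bool) (n : ℕ) : List Bool := (List.range n).map ω

/-- The cylinder set of all sequences that extend the string `x`. -/
def cyl (x : List Bool) : Set (ℕ → Bool) := {ω | pre ω x.length = x}

/-- The uniform measure on infinite binary sequences (independent fair coin tosses). -/
noncomputable def coin : Measure (ℕ → Bool) :=
  Measure.infinitePi fun _ => (PMF.uniformOfFintype Bool).toMeasure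

/-- A Martin-Löf test with respect to `coin`: a uniformly recursively enumerable sequence of sets
of strings `U n`, the `n`-th generating an open set of measure at most `2^{-n}`. -/
structure IsMLTest (U : ℕ → Set (List Bool)) : Prop where
  re : REPred fun p : ℕ × List Bool => p.2 ∈ U p.1
  meas : ∀ n, coin (⋃ x ∈ U n, cyl x) ≤ ENNReal.ofReal ((1 / 2 : ℝ) ^ n)

/-- `ω` is Martin-Löf random: it lies in the null set of no Martin-Löf test. -/
def MLRandom (ω : ℕ → Bool) : Prop :=
  ∀ U : ℕ → Set (List Bool), IsMLTest U → ∃ n, ω ∉ ⋃ x ∈ U n, cyl x

end Pool.Agent.SemConv
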