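import Pool.Agent.Lib.MP_b38472_lc.Defs

/-!
The payment machine.

A node of the tree of plays has `L + 1` children; child `a` is reached by appending the string
`part L a` (`0^L` for `a = 0`, and `0^(L-a) 1` for `1 ≤ a ≤ L`).
-/

namespace Pool.Agent.SemConv

open Filter Topology

/-- The `a`-th part of a node. -/
def part (L a : ℕ) : List Bool :=
  if a = 0 then List.replicate L false else List.replicate (L - a) false ++ [true]

/-- A frame `(a, f, n, m)`: current child `a`, jump flag `f`, accumulated payment `n / 2^m`
in the children before `a`. -/
abbrev Frame := ℕ × Bool × ℕ × ℕ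

/-- The zero frame. -/
def zf : Frame := (0, false, 0, 0)

/-- The string of a node given by a stack of frames. -/
def str (L : ℕ) (st : List Frame) : List Bool := st.flatMap fun F => part L F.1

/-- The index after passing through frames. -/
def idx (l K : ℕ) (st : List Frame) : ℕ :=
  st.foldl (fun k F => if F.2.1 then k + l else k - 1) K

/-- payment below a node, as a dyadic rational `n / 2^m`. -/
def pay (L : ℕ) (st : List Frame) : ℕ × ℕ :=
  st.foldr (fun F r =>
    (F.2.2.1 * 2 ^ (r.2 + (part L F.1).length) + r.1 * 2 ^ F.2.2.2,
      F.2.2.2 + r.2 + (part L F.1).length)) (1, 0)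

/-- least `i < n` with `c i`. -/
def least (c : ℕ → Bool) : ℕ → Option ℕ
  | 0 => none
  | n + 1 => (least c n).casesOn (bif c n then some n else none) some

/-- The new frame after child `F.1` has been completed with payment `r`. -/
def nextFrame (L : ℕ) (F : Frame) (r : ℕ × ℕ) : Frame :=
  (F.1 + 1, decide (F.1 = 0) && decide (4 * 2 ^ r.2 < r.1 * 2 ^ L),
    F.2.2.1 * 2 ^ (r.2 + (part L F.1).length) + r.1 * 2 ^ F.2.2.2,
    F.2.2.2 + r.2 + (part L F.1).length)

/-- The new stack after the node at depth `i + 1` of the stack has been completed. -/
def newStack (L l K : ℕ) (st : List Frame) (i : ℕ) (F : Frame) : List Frame :=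
  (st.take i ++ [nextFrame L F (pay L (st.drop (i + 1)))]) ++
    List.replicate (idx l K (st.take i ++ [nextFrame L F (pay L (st.drop (i + 1)))])) zf

/-- The stack after advancing at depth `i + 1`, if possible. -/
def advance (L l K : ℕ) (st : List Frame) (i : ℕ) : Option (List Frame) :=
  (st[i]?).bind fun F => bif decide (F.1 < L) then some (newStack L l K st i F) else none

/-- Option of the new stack. -/
def stepOpt (L l K : ℕ) (c : ℕ → Bool) (st : List Frame) : Option (List Frame) :=
  (least c (st.length + 1)).bind fun i => Nat.casesOn i none fun i => advance L l K st i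

/-- A step of the machine. -/
def step (L l K : ℕ) (c : ℕ → Bool) (σ : List Frame × List (List Bool)) :
    List Frame × List (List Bool) :=
  (stepOpt L l K c σ.1).casesOn σ fun st => (st, str L st :: σ.2)

/-- The initial state. -/
def init (L K : ℕ) : List Frame × List (List Bool) :=
  (List.replicate K zf, [str L (List.replicate K zf)])

/-- The run of the machine, with check function `c s st i`. -/
def run (L l K : ℕ) (c : ℕ → List Frame → ℕ → Bool) : ℕ → List Frame × List (List Bool)
  | 0 => init L K
  | s + 1 => step L l K (c s (run L l K c s).1) (run L l K c s)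

end Pool.Agent.SemConv
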