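import Pool.Agent.Lib.MP_b38472_lc.Run

/-!
Combinatorial analysis of the payment machine, part 3: the limit path.
-/

namespace Pool.Agent.SemConv

open Filter Topology

lemma pre_length (ω : ℕ → Bool) (n : ℕ) : (pre ω n).length = n := by simp [pre]

lemma pre_succ (ω : ℕ → Bool) (n : ℕ) : pre ω (n + 1) = pre ω n ++ [ω n] := by
  simp [pre, List.range_succ]

lemma pre_take (ω : ℕ → Bool) {m n : ℕ} (h : m ≤ n) : (pre ω n).take m = pre ω m := by
  unfold pre
  rw [← List.map_take, List.take_range, min_eq_left h]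

lemma pre_getElem (ω : ℕ → Bool) (n i : ℕ) (h : i < (pre ω n).length) : (pre ω n)[i] = ω i := by
  simp [pre]

lemma M_append_le {M : List Bool → ℝ} (hM : IsSemimeasure M) (x : List Bool) :
    ∀ y, M (x ++ y) ≤ M x := by
  intro y
  induction y using List.reverseRecOn with
  | nil => simp
  | append_singleton y b ih =>
    rw [← List.append_assoc]
    have h := hM.split (x ++ y)
    have h0 := hM.nonneg (x ++ y ++ [false])
    have h1 := hM.nonneg (x ++ y ++ [true])
    cases b <;> linarith

lemma part_length_pos {L : ℕ} (hL : 1 ≤ L) (a : ℕ) : 1 ≤ (part L a).length := by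
  unfold part
  split_ifs
  · simpa using hL
  · simp

lemma part_length_le {L : ℕ} (hL : 1 ≤ L) (a : ℕ) : (part L a).length ≤ L := by
  unfold part
  split_ifs with h
  · simp
  · simp only [List.length_append, List.length_replicate, List.length_singleton]
    omega

section

variable {L l K : ℕ} {τ : ℕ → ℝ} {M : List Bool → ℝ} {D : ℕ → List Bool → ℝ}
  {c : ℕ → List Frame → ℕ → Bool}

namespace Hyp

/-- The sequence of stable prefixes. -/
lemma exists_path (h : Hyp L l K τ M D c) : ∃ (p : ℕ → List Frame) (F : ℕ → Frame),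
    p 0 = [] ∧ (∀ n, p (n + 1) = p n ++ [F n]) ∧ ∀ n, Stable L l K c (p n) := by
  choose! G hG using fun (q : List Frame) (hq : Stable L l K c q) => h.stable_step hq
  let p : ℕ → List Frame := fun n => Nat.rec [] (fun _ q => q ++ [G q]) n
  have hp : ∀ n, Stable L l K c (p n) := by
    intro n
    induction n with
    | zero => exact stable_nil h.hM h.le h.check
    | succ n ih => exact hG _ ih
  exact ⟨p, fun n => G (p n), rfl, fun n => rfl, hp⟩

lemma good_of_stable (h : Hyp L l K τ M D c) {q : List Frame} (hq : Stable L l K c q) :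
    GoodPre L l τ M K [] q := by
  obtain ⟨s0, hs0⟩ := hq
  obtain ⟨⟨suf, hsuf⟩, _⟩ := hs0 s0 le_rfl
  have hg := (h.inv s0).good
  rw [hsuf, goodPre_append] at hg
  exact hg.1

lemma le_of_stable (h : Hyp L l K τ M D c) {q : List Frame} (hq : Stable L l K c q) :
    M (str L q) ≤ 4 * wt (str L q) := by
  obtain ⟨s0, hs0⟩ := hq
  refine le_of_tendsto (h.lim _) ?_
  filter_upwards [eventually_ge_atTop s0] with s hs
  obtain ⟨⟨suf, hsuf⟩, hchk⟩ := hs0 s hs
  have h1 := hchk q.length le_rfl
  have h2 : ¬ (c s (run L l K c s).1 q.length = true) := by rw [h1]; simp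
  rw [h.check, hsuf] at h2
  simp only [List.take_left, List.drop_left] at h2
  push Not at h2
  have hg := (h.inv s).good
  have hl := (h.inv s).leaf
  rw [hsuf, goodPre_append] at hg
  rw [hsuf, idx_append] at hl
  have h3 := (eR_le h.hL h.hτ _ _ _ hg.2 hl).trans (h.hτ.le_one _)
  have h4 := wt_pos (str L q)
  nlinarith

lemma le_of_stable_jump (h : Hyp L l K τ M D c) {q : List Frame} {F : Frame}
    (hq : Stable L l K c (q ++ [F])) (hF : F.2.1 = true) :
    M (str L q) ≤ 2 * wt (str L q) * (1 + 2 / 2 ^ L) := by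
  obtain ⟨s0, hs0⟩ := hq
  refine le_of_tendsto (h.lim _) ?_
  filter_upwards [eventually_ge_atTop s0] with s hs
  obtain ⟨⟨suf, hsuf⟩, hchk⟩ := hs0 s hs
  have h1 := hchk q.length (by simp)
  have h2 : ¬ (c s (run L l K c s).1 q.length = true) := by rw [h1]; simp
  rw [List.append_assoc, List.singleton_append] at hsuf
  rw [h.check, hsuf] at h2
  simp only [List.take_left, List.drop_left] at h2
  push Not at h2
  have hg := (h.inv s).good
  have hl := (h.inv s).leaf
  rw [hsuf, goodPre_append] at hg
  rw [hsuf, idx_append] at hl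
  have h3 := eR_le_jump h.hL h.hτ F suf _ _ hg.2 hl hF
  have h4 := wt_pos (str L q)
  have : 2 * wt (str L q) * (1 + eR L (F :: suf)) ≤ 2 * wt (str L q) * (1 + 2 / 2 ^ L) := by
    apply mul_le_mul_of_nonneg_left _ (by positivity)
    linarith
  exact h2.trans this

/-- The limit sequence: bounded, with infinitely many jumps. -/
lemma exists_omega (h : Hyp L l K τ M D c) : ∃ ω : ℕ → Bool,
    (∀ m, M (pre ω m) ≤ 4 * 2 ^ L * (1 / 2 : ℝ) ^ m) ∧
    ∀ m0, ∃ z : List Bool, m0 ≤ z.length ∧
      pre ω (z.length + L) = z ++ List.replicate (L - 1) false ++ [true] ∧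
      M z ≤ 2 * wt z * (1 + 2 / 2 ^ L) ∧
      2 * wt z * (1 / 2 ^ L * (1 + 4 / 2 ^ L)) < M (z ++ List.replicate L false) := by
  obtain ⟨p, F, hp0, hp1, hst⟩ := h.exists_path
  have hL := h.hL
  let x : ℕ → List Bool := fun n => str L (p n)
  have hx0 : x 0 = [] := by simp [x, hp0, str_nil]
  have hx1 : ∀ n, x (n + 1) = x n ++ part L (F n).1 := by
    intro n; simp [x, hp1, str_append, str_cons, str_nil]
  have hlen : ∀ n, n ≤ (x n).length := by
    intro n
    induction n with
    | zero => simp
    | succ n ih =>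
      rw [hx1, List.length_append]
      have := part_length_pos hL (F n).1
      omega
  have hpre : ∀ n m, n ≤ m → ∃ y, x m = x n ++ y := by
    intro n m hnm
    induction m, hnm using Nat.le_induction with
    | base => exact ⟨[], by simp⟩
    | succ m hm ih =>
      obtain ⟨y, hy⟩ := ih
      exact ⟨y ++ part L (F m).1, by rw [hx1, hy, List.append_assoc]⟩
  let ω : ℕ → Bool := fun m => (x (m + 1)).getD m false
  have hω : ∀ n, pre ω (x n).length = x n := by
    intro n
    apply List.ext_getElem
    · simp [pre_length]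
    · intro i h1 h2
      rw [pre_getElem]
      have h3 : i < (x (i + 1)).length := lt_of_lt_of_le (Nat.lt_succ_self i) (hlen (i + 1))
      have h4 : ω i = (x (i + 1))[i] := by
        simp only [ω]
        rw [List.getD_eq_getElem _ _ h3]
      rw [h4]
      rcases le_total n (i + 1) with hle | hle
      · obtain ⟨y, hy⟩ := hpre _ _ hle
        have : (x (i + 1))[i]? = (x n)[i]? := by
          rw [hy, List.getElem?_append_left h2]
        rw [List.getElem?_eq_getElem h3, List.getElem?_eq_getElem h2] at this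
        exact Option.some.inj this
      · obtain ⟨y, hy⟩ := hpre _ _ hle
        have : (x n)[i]? = (x (i + 1))[i]? := by
          rw [hy, List.getElem?_append_left h3]
        rw [List.getElem?_eq_getElem h3, List.getElem?_eq_getElem h2] at this
        exact (Option.some.inj this).symm
  refine ⟨ω, ?_, ?_⟩
  · intro m
    have hex : ∃ n, m < (x (n + 1)).length := ⟨m, hlen (m + 1)⟩
    classical
    obtain ⟨n, hn, hmin⟩ : ∃ n, m < (x (n + 1)).length ∧ (x n).length ≤ m := by
      refine ⟨Nat.find hex, Nat.find_spec hex, ?_⟩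
      cases hf : Nat.find hex with
      | zero => simp [hx0]
      | succ k =>
        have := Nat.find_min hex (m := k) (by omega)
        omega
    have h1 := h.le_of_stable (hst n)
    have h2 : pre ω (x n).length = (pre ω m).take (x n).length := (pre_take ω hmin).symm
    rw [hω] at h2
    have h3 : pre ω m = x n ++ (pre ω m).drop (x n).length := by
      conv_lhs => rw [← List.take_append_drop (x n).length (pre ω m)]
      rw [← h2]
    rw [h3]
    have h4 := M_append_le h.hM (x n) ((pre ω m).drop (x n).length)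
    have h5 : m ≤ (x n).length + L := by
      rw [hx1, List.length_append] at hn
      have := part_length_le hL (F n).1
      omega
    have h6 : wt (x n) ≤ 2 ^ L * (1 / 2 : ℝ) ^ m := by
      unfold wt
      have e : (2 : ℝ) ^ L * (1 / 2) ^ m = 2 ^ L * (1 / 2) ^ m := rfl
      have h7 : (1 / 2 : ℝ) ^ ((x n).length + L) ≤ (1 / 2 : ℝ) ^ m :=
        pow_le_pow_of_le_one (by norm_num) (by norm_num) h5
      calc (1 / 2 : ℝ) ^ (x n).length = 2 ^ L * (1 / 2 : ℝ) ^ ((x n).length + L) := by
            rw [pow_add]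
            have : (2 : ℝ) ^ L * (1 / 2) ^ L = 1 := by
              rw [← mul_pow]; norm_num
            linear_combination -(1 / 2 : ℝ) ^ (x n).length * this
        _ ≤ _ := mul_le_mul_of_nonneg_left h7 (by positivity)
    calc M (x n ++ (pre ω m).drop (x n).length) ≤ M (x n) := h4
      _ ≤ 4 * wt (x n) := h1
      _ ≤ 4 * (2 ^ L * (1 / 2 : ℝ) ^ m) := by linarith
      _ = _ := by ring
  · intro m0
    -- infinitely many jumps
    have hgood : ∀ n, GoodPre L l τ M K [] (p n) := fun n => h.good_of_stable (hst n)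
    have hframe : ∀ n, 1 ≤ idx l K (p n) ∧ FrameOK L l τ M (idx l K (p n)) (x n) (F n) := by
      intro n
      have := hgood (n + 1)
      rw [hp1, goodPre_append, List.nil_append] at this
      exact ⟨this.2.1, this.2.2.1⟩
    obtain ⟨n, hn, hfl⟩ : ∃ n ≥ m0, (F n).2.1 = true := by
      by_contra hcon
      push Not at hcon
      have hdec : ∀ j, idx l K (p (m0 + j)) + j ≤ idx l K (p m0) := by
        intro j
        induction j with
        | zero => simp
        | succ j ih =>
          have h1 := hcon (m0 + j) (by omega)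
          have h2 : (F (m0 + j)).2.1 = false := by simpa using h1
          have h3 := (hframe (m0 + j)).1
          have h4 : idx l K (p (m0 + (j + 1))) = idx l K (p (m0 + j)) - 1 := by
            rw [← add_assoc, hp1, idx_append, idx_cons, idx_nil, h2]
            simp [nextk]
          omega
      have h1 := hdec (idx l K (p m0) + 1)
      omega
    obtain ⟨_, hF⟩ := hframe n
    obtain ⟨ha, hacc, _⟩ := hF.jump hfl
    refine ⟨x n, hn.trans (hlen n), ?_, ?_, ?_⟩
    · have h1 := hω (n + 1)
      rw [hx1, ha, part_succ] at h1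
      have h2 : (x n ++ (List.replicate (L - (0 + 1)) false ++ [true])).length =
          (x n).length + L := by
        simp only [List.length_append, List.length_replicate, List.length_singleton]
        omega
      rw [h2] at h1
      rw [h1, List.append_assoc]
    · exact h.le_of_stable_jump (hp1 n ▸ hst (n + 1)) hfl
    · have hs := hF.sum (by rw [ha])
      rw [ha, W_one] at hs
      simp only [Msum, Finset.range_one, Finset.sum_singleton, part_zero] at hs
      refine lt_of_le_of_lt ?_ hs
      have h4 := wt_pos (x n)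
      apply mul_le_mul_of_nonneg_left _ (by positivity)
      have e : (1 : ℝ) / 2 ^ L * (1 + 4 / 2 ^ L) = 1 / 2 ^ L + 4 / 2 ^ L / 2 ^ L := by ring
      rw [e]
      linarith

/-- Conditional probabilities do not converge to `1/2` along the limit sequence. -/
lemma main (h : Hyp L l K τ M D c) (hpos : ∀ x, 0 < M x) : ∃ ω : ℕ → Bool,
    (∀ m, M (pre ω m) ≤ 4 * 2 ^ L * (1 / 2 : ℝ) ^ m) ∧
    ¬ Tendsto (fun n => M (pre ω (n + 1)) / M (pre ω n)) atTop (𝓝 (1 / 2)) := by
  obtain ⟨ω, hb, hj⟩ := h.exists_omega
  refine ⟨ω, hb, fun hlim => ?_⟩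
  have hL := h.hL
  have hN : (0 : ℝ) < 1 / 2 ^ L := by positivity
  -- choose ε
  obtain ⟨ε, hε, hεlt⟩ : ∃ ε > 0, (1 / 2 + ε : ℝ) ^ L * (1 + 2 / 2 ^ L) <
      1 / 2 ^ L * (1 + 4 / 2 ^ L) := by
    have hcont : Tendsto (fun ε : ℝ => (1 / 2 + ε : ℝ) ^ L * (1 + 2 / 2 ^ L)) (𝓝[>] 0)
        (𝓝 ((1 / 2 + 0 : ℝ) ^ L * (1 + 2 / 2 ^ L))) := by
      apply tendsto_nhdsWithin_of_tendsto_nhds
      apply Continuous.tendsto (by fun_prop)
    have hlt : (1 / 2 + 0 : ℝ) ^ L * (1 + 2 / 2 ^ L) < 1 / 2 ^ L * (1 + 4 / 2 ^ L) := by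
      rw [add_zero, one_div_pow]
      apply mul_lt_mul_of_pos_left _ hN
      have : (2 : ℝ) / 2 ^ L < 4 / 2 ^ L := by
        apply div_lt_div_of_pos_right (by norm_num) (by positivity)
      linarith
    have h1 := hcont.eventually_lt_const hlt
    have h2 : ∀ᶠ ε : ℝ in 𝓝[>] 0, 0 < ε := eventually_mem_nhdsWithin
    obtain ⟨ε, hε1, hε2⟩ := (h1.and h2).exists
    exact ⟨ε, hε2, hε1⟩
  obtain ⟨m0, hm0⟩ := (Metric.tendsto_atTop.1 hlim) ε hε
  obtain ⟨z, hz, hzω, hz1, hz2⟩ := hj m0
  have hpz : ∀ i, i ≤ L - 1 → pre ω (z.length + i) = z ++ List.replicate i false := by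
    intro i hi
    have h1 : (pre ω (z.length + L)).take (z.length + i) = pre ω (z.length + i) :=
      pre_take ω (by omega)
    rw [← h1, hzω, List.append_assoc, List.take_length_add_append, List.take_append_of_le_length (by simpa using hi),
      List.take_replicate, min_eq_left hi]
  have hratio : ∀ m ≥ m0, M (pre ω (m + 1)) ≤ (1 / 2 + ε) * M (pre ω m) ∧
      (1 / 2 - ε) * M (pre ω m) ≤ M (pre ω (m + 1)) := by
    intro m hm
    have h1 := hm0 m hm
    rw [Real.dist_eq, abs_lt] at h1
    have h2 := hpos (pre ω m)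
    constructor
    · have : M (pre ω (m + 1)) / M (pre ω m) ≤ 1 / 2 + ε := by linarith
      rwa [div_le_iff₀ h2] at this
    · have : 1 / 2 - ε ≤ M (pre ω (m + 1)) / M (pre ω m) := by linarith
      rwa [le_div_iff₀ h2] at this
  have hind : ∀ i, i ≤ L - 1 → M (z ++ List.replicate i false) ≤ (1 / 2 + ε) ^ i * M z := by
    intro i
    induction i with
    | zero => intro _; simp
    | succ i ih =>
      intro hi
      have h1 := ih (by omega)
      have h2 := (hratio (z.length + i) (by omega)).1
      rw [add_assoc, hpz (i + 1) hi, hpz i (by omega)] at h2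
      calc M (z ++ List.replicate (i + 1) false) ≤ (1 / 2 + ε) * M (z ++ List.replicate i false) := h2
        _ ≤ (1 / 2 + ε) * ((1 / 2 + ε) ^ i * M z) :=
          mul_le_mul_of_nonneg_left h1 (by linarith)
        _ = _ := by ring
  have h1 := hind (L - 1) le_rfl
  have h2 := (hratio (z.length + (L - 1)) (by omega)).2
  have e1 : z.length + (L - 1) + 1 = z.length + L := by omega
  rw [e1, hpz (L - 1) le_rfl, hzω] at h2
  have h3 := h.hM.split (z ++ List.replicate (L - 1) false)
  have e2 : z ++ List.replicate (L - 1) false ++ [false] = z ++ List.replicate L false := by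
    rw [List.append_assoc, ← List.replicate_succ', Nat.sub_add_cancel hL]
  rw [e2] at h3
  have h4 : M (z ++ List.replicate L false) ≤ (1 / 2 + ε) ^ L * M z := by
    calc M (z ++ List.replicate L false) ≤ (1 / 2 + ε) * M (z ++ List.replicate (L - 1) false) := by
          linarith
      _ ≤ (1 / 2 + ε) * ((1 / 2 + ε) ^ (L - 1) * M z) :=
          mul_le_mul_of_nonneg_left h1 (by linarith)
      _ = (1 / 2 + ε) ^ (L - 1 + 1) * M z := by ring
      _ = _ := by rw [Nat.sub_add_cancel hL]
  have hw := wt_pos z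
  have h5 : (1 / 2 + ε) ^ L * M z ≤ (1 / 2 + ε) ^ L * (2 * wt z * (1 + 2 / 2 ^ L)) :=
    mul_le_mul_of_nonneg_left hz1 (by positivity)
  have h6 : (1 / 2 + ε) ^ L * (2 * wt z * (1 + 2 / 2 ^ L)) <
      2 * wt z * (1 / 2 ^ L * (1 + 4 / 2 ^ L)) := by
    have : 2 * wt z * ((1 / 2 + ε) ^ L * (1 + 2 / 2 ^ L)) <
        2 * wt z * (1 / 2 ^ L * (1 + 4 / 2 ^ L)) :=
      mul_lt_mul_of_pos_left hεlt (by positivity)
    linarith
  linarith

end Hyp

end

end Pool.Agent.SemConv
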