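import Pool.Agent.Lib.MP_b38472_lc.Comb

/-!
The sequence of thresholds.
-/

namespace Pool.Agent.SemConv

/-- the ratio -/
noncomputable def rho (L : ℕ) : ℝ := 1 - 1 / (2 * 2 ^ L)

/-- the thresholds -/
noncomputable def tau (L : ℕ) (k : ℕ) : ℝ := 4 / 2 ^ L + (1 - 4 / 2 ^ L) * rho L ^ k

lemma rho_pos (L : ℕ) : 0 < rho L := by
  unfold rho
  have h : (1 : ℝ) ≤ 2 ^ L := one_le_pow₀ (by norm_num)
  have : (1 : ℝ) / (2 * 2 ^ L) ≤ 1 / 2 := by
    apply one_div_le_one_div_of_le (by norm_num); linarith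
  linarith

lemma rho_lt_one (L : ℕ) : rho L < 1 := by
  unfold rho
  have : (0 : ℝ) < 1 / (2 * 2 ^ L) := by positivity
  linarith

lemma rho_pow_le_half (L : ℕ) : rho L ^ (2 * 2 ^ L) ≤ 1 / 2 := by
  have h1 : (2 : ℝ) ≤ (1 + 1 / (2 * 2 ^ L)) ^ (2 * 2 ^ L) := by
    have := one_add_mul_le_pow (a := (1 / (2 * 2 ^ L) : ℝ)) (by
      have : (0 : ℝ) < 1 / (2 * 2 ^ L) := by positivity
      linarith) (2 * 2 ^ L)
    push_cast at this
    have e : (2 * 2 ^ L : ℝ) * (1 / (2 * 2 ^ L)) = 1 := by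
      field_simp
    rw [e] at this
    linarith
  have h2 : (rho L * (1 + 1 / (2 * 2 ^ L))) ^ (2 * 2 ^ L) ≤ 1 := by
    apply pow_le_one₀
    · have := rho_pos L; positivity
    · unfold rho
      have : (0 : ℝ) ≤ (1 / (2 * 2 ^ L)) ^ 2 := by positivity
      nlinarith
  rw [mul_pow] at h2
  have h3 : 0 ≤ rho L ^ (2 * 2 ^ L) := by have := rho_pos L; positivity
  nlinarith

lemma kappa_le {L : ℕ} (hL : 2 ≤ L) : (4 : ℝ) / 2 ^ L ≤ 1 := by
  rw [div_le_one (by positivity)]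
  calc (4 : ℝ) = 2 ^ 2 := by norm_num
    _ ≤ 2 ^ L := pow_le_pow_right₀ (by norm_num) hL

lemma tauOK {L : ℕ} (hL : 2 ≤ L) : TauOK L (2 * 2 ^ L) (tau L) := by
  have hk := kappa_le hL
  have hr0 := rho_pos L
  have hr1 := rho_lt_one L
  have hk0 : (0 : ℝ) < 4 / 2 ^ L := by positivity
  have hN : (0 : ℝ) < 1 / 2 ^ L := by positivity
  have hN1 : (1 : ℝ) / 2 ^ L ≤ 1 := by
    rw [div_le_one (by positivity)]; exact one_le_pow₀ (by norm_num)
  have hrho : rho L = 1 - (1 / 2 ^ L) / 2 := by unfold rho; ring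
  have hpow : ∀ k, 0 ≤ rho L ^ k ∧ rho L ^ k ≤ 1 := fun k =>
    ⟨by positivity, pow_le_one₀ hr0.le hr1.le⟩
  constructor
  · simp [tau]
  · intro k
    unfold tau
    have := (hpow k).2
    nlinarith
  · intro k
    unfold tau
    have := (hpow k).1
    have h2 : 0 ≤ (1 - 4 / 2 ^ L) * rho L ^ k := mul_nonneg (by linarith) this
    linarith
  · intro k
    unfold tau
    have h1 := (hpow k).1
    have h2 : 0 ≤ (1 - 4 / 2 ^ L) * rho L ^ k := mul_nonneg (by linarith) h1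
    have e : (4 : ℝ) / 2 ^ L / 2 ^ L = (1 / 2 ^ L) * (4 / 2 ^ L) := by ring
    rw [e, pow_succ, hrho]
    rw [hrho] at h2 h1
    nlinarith
  · intro k
    unfold tau
    have h1 := (hpow k).1
    have h2 : 0 ≤ (1 - 4 / 2 ^ L) * rho L ^ k := mul_nonneg (by linarith) h1
    have h3 : rho L ^ (k + 1 + 2 * 2 ^ L) ≤ rho L ^ k * (1 / 2) := by
      rw [add_assoc, pow_add, add_comm 1, pow_add, pow_one]
      have h4 := rho_pow_le_half L
      have h5 : rho L ^ (2 * 2 ^ L) * rho L ≤ 1 / 2 := by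
        have : 0 ≤ rho L ^ (2 * 2 ^ L) := by positivity
        nlinarith
      exact mul_le_mul_of_nonneg_left h5 h1
    have e : ∀ r : ℝ, r / 2 ^ L = (1 / 2 ^ L) * r := by intro r; ring
    rw [e (4 / 2 ^ L + (1 - 4 / 2 ^ L) * rho L ^ (k + 1 + 2 * 2 ^ L)), pow_succ]
    have h6 : (1 - 4 / 2 ^ L) * rho L ^ (k + 1 + 2 * 2 ^ L) ≤
        (1 - 4 / 2 ^ L) * (rho L ^ k * (1 / 2)) := mul_le_mul_of_nonneg_left h3 (by linarith)
    have h7 : (1 / 2 ^ L : ℝ) * ((1 - 4 / 2 ^ L) * rho L ^ (k + 1 + 2 * 2 ^ L)) ≤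
        (1 / 2 ^ L) * ((1 - 4 / 2 ^ L) * (rho L ^ k * (1 / 2))) :=
      mul_le_mul_of_nonneg_left h6 hN.le
    have e2 : (1 - 4 / 2 ^ L : ℝ) * (rho L ^ k * rho L) =
        (1 - 4 / 2 ^ L) * rho L ^ k - (1 / 2 ^ L) * ((1 - 4 / 2 ^ L) * (rho L ^ k * (1 / 2))) := by
      linear_combination (1 - 4 / 2 ^ L : ℝ) * rho L ^ k * hrho
    rw [e2]
    nlinarith

lemma tau_K_le {L : ℕ} (hL : 2 ≤ L) : tau L (2 * 2 ^ L * L) ≤ 8 / 2 ^ L := by
  have hk := kappa_le hL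
  have hk0 : (0 : ℝ) < 4 / 2 ^ L := by positivity
  have h1 : rho L ^ (2 * 2 ^ L * L) ≤ 1 / 2 ^ L := by
    rw [pow_mul]
    have h := rho_pow_le_half L
    have h0 : 0 ≤ rho L ^ (2 * 2 ^ L) := by have := rho_pos L; positivity
    calc (rho L ^ (2 * 2 ^ L)) ^ L ≤ (1 / 2) ^ L := pow_le_pow_left₀ h0 h L
      _ = 1 / 2 ^ L := by rw [one_div_pow]
  unfold tau
  have h2 : (1 - 4 / 2 ^ L) * rho L ^ (2 * 2 ^ L * L) ≤ 1 * (1 / 2 ^ L) := by
    apply mul_le_mul (by linarith) h1 _ (by norm_num)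
    have := rho_pos L; positivity
  have e : (8 : ℝ) / 2 ^ L = 4 / 2 ^ L + 4 / 2 ^ L := by ring
  have e2 : (4 : ℝ) / 2 ^ L = 4 * (1 / 2 ^ L) := by ring
  have h3 : (0 : ℝ) < 1 / 2 ^ L := by positivity
  rw [e]
  linarith

end Pool.Agent.SemConv
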