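import Pool.Agent.Lib.MP_b38472_lc.Compute
import Pool.Agent.Lib.MP_b38472_lc.Path
import Pool.Agent.Lib.MP_b38472_lc.Tau

/-!
The lower semicomputable semimeasure produced by the payment machines, and the main argument.
-/

namespace Pool.Agent.SemConv

open Filter Topology

/-! ### integers -/

lemma encode_int (n : ℤ) : Encodable.encode n = Equiv.intEquivNat n := rfl

lemma prim_toNat : Primrec Int.toNat := by
  have h1 : Primrec fun n : ℤ => bif decide (Encodable.encode n % 2 = 0)
      then Encodable.encode n / 2 else 0 :=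
    Primrec.cond (prim_eq (Primrec.nat_mod.comp Primrec.encode (Primrec.const 2))
      (Primrec.const 0)) (Primrec.nat_div.comp Primrec.encode (Primrec.const 2)) (Primrec.const 0)
  refine h1.of_eq fun n => ?_
  rw [encode_int]
  cases n with
  | ofNat n =>
    have : Equiv.intEquivNat (Int.ofNat n) = 2 * n := rfl
    rw [this]; simp
  | negSucc n =>
    have : Equiv.intEquivNat (Int.negSucc n) = 2 * n + 1 := rfl
    rw [this]
    simp

lemma prim_ofNat : Primrec Int.ofNat := by
  rw [← Primrec.encode_iff]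
  have h1 : Primrec fun n : ℕ => 2 * n := prim_mul (Primrec.const 2) Primrec.id
  exact h1.of_eq fun n => rfl

/-! ### the check function -/

/-- The numerical comparison made by the check function. -/
def chkN (r : (ℕ × ℕ) × (ℕ × (ℕ × ℕ))) : Bool :=
  decide (2 * r.1.2 * (2 ^ r.2.2.2 + r.2.2.1) < r.1.1 * 2 ^ r.2.1 * 2 ^ r.2.2.2)

/-- The check function computed from numerators `P` and denominators `q`. -/
def chkF (L : ℕ) (P q : List Bool → ℕ → ℕ) (s : ℕ) (st : List Frame) (i : ℕ) : Bool :=
  chkN ((P (str L (st.take i)) s, q (str L (st.take i)) s),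
    ((str L (st.take i)).length, pay L (st.drop i)))

lemma chkF_ok (L : ℕ) (P q : List Bool → ℕ → ℕ) (hq : ∀ x t, 0 < q x t) :
    CheckOK L (fun s x => (P x s : ℝ) / q x s) (chkF L P q) := by
  intro s st i
  unfold chkF chkN
  rw [decide_eq_true_eq]
  set x := str L (st.take i)
  have hqx : (0 : ℝ) < q x s := by exact_mod_cast hq x s
  have e : 2 * wt x * (1 + eR L (st.drop i)) =
      (2 * (2 ^ (pay L (st.drop i)).2 + (pay L (st.drop i)).1)) /
        (2 ^ x.length * 2 ^ (pay L (st.drop i)).2) := by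
    unfold wt eR
    rw [one_div_pow]
    field_simp
  rw [e, div_lt_div_iff₀ (by positivity) hqx]
  simp only
  constructor
  · intro h
    have h' : ((2 * q x s * (2 ^ (pay L (st.drop i)).2 + (pay L (st.drop i)).1) : ℕ) : ℝ) <
      ((P x s * 2 ^ x.length * 2 ^ (pay L (st.drop i)).2 : ℕ) : ℝ) := by exact_mod_cast h
    push_cast at h'
    linarith
  · intro h
    have h' : ((2 * q x s * (2 ^ (pay L (st.drop i)).2 + (pay L (st.drop i)).1) : ℕ) : ℝ) <
      ((P x s * 2 ^ x.length * 2 ^ (pay L (st.drop i)).2 : ℕ) : ℝ) := by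
      push_cast
      linarith
    exact_mod_cast h'

lemma prim_chkN : Primrec chkN := by
  have h11 : Primrec fun r : (ℕ × ℕ) × (ℕ × (ℕ × ℕ)) => r.1.1 := Primrec.fst.comp Primrec.fst
  have h12 : Primrec fun r : (ℕ × ℕ) × (ℕ × (ℕ × ℕ)) => r.1.2 := Primrec.snd.comp Primrec.fst
  have h21 : Primrec fun r : (ℕ × ℕ) × (ℕ × (ℕ × ℕ)) => r.2.1 := Primrec.fst.comp Primrec.snd
  have h221 : Primrec fun r : (ℕ × ℕ) × (ℕ × (ℕ × ℕ)) => r.2.2.1 :=
    Primrec.fst.comp (Primrec.snd.comp Primrec.snd)
  have h222 : Primrec fun r : (ℕ × ℕ) × (ℕ × (ℕ × ℕ)) => r.2.2.2 :=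
    Primrec.snd.comp (Primrec.snd.comp Primrec.snd)
  exact prim_lt (prim_mul (prim_mul (Primrec.const 2) h12) (prim_add (prim_two_pow h222) h221))
    (prim_mul (prim_mul h11 (prim_two_pow h21)) (prim_two_pow h222))

lemma comp_chkF {α : Type*} [Primcodable α] {L : α → ℕ} {P q : List Bool → ℕ → ℕ}
    (hL : Primrec L) (hP : Computable₂ P) (hq : Computable₂ q) :
    Computable fun x : α × (ℕ × (List Frame × ℕ)) => chkF (L x.1) P q x.2.1 x.2.2.1 x.2.2.2 := by
  have hL' : Primrec fun x : α × (ℕ × (List Frame × ℕ)) => L x.1 := hL.comp Primrec.fst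
  have hs : Primrec fun x : α × (ℕ × (List Frame × ℕ)) => x.2.1 := Primrec.fst.comp Primrec.snd
  have hst : Primrec fun x : α × (ℕ × (List Frame × ℕ)) => x.2.2.1 :=
    Primrec.fst.comp (Primrec.snd.comp Primrec.snd)
  have hi : Primrec fun x : α × (ℕ × (List Frame × ℕ)) => x.2.2.2 :=
    Primrec.snd.comp (Primrec.snd.comp Primrec.snd)
  have hx : Primrec fun x : α × (ℕ × (List Frame × ℕ)) => str (L x.1) (x.2.2.1.take x.2.2.2) :=
    prim_str hL' (prim_take hi hst)
  have hp : Primrec fun x : α × (ℕ × (List Frame × ℕ)) => pay (L x.1) (x.2.2.1.drop x.2.2.2) :=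
    prim_pay hL' (prim_drop hi hst)
  have hPx : Computable fun x : α × (ℕ × (List Frame × ℕ)) =>
    P (str (L x.1) (x.2.2.1.take x.2.2.2)) x.2.1 := hP.comp hx.to_comp hs.to_comp
  have hqx : Computable fun x : α × (ℕ × (List Frame × ℕ)) =>
    q (str (L x.1) (x.2.2.1.take x.2.2.2)) x.2.1 := hq.comp hx.to_comp hs.to_comp
  have hfin := prim_chkN.to_comp.comp (Computable.pair (Computable.pair hPx hqx)
    (Computable.pair (prim_length hx).to_comp hp.to_comp))
  exact hfin

/-! ### the family of machines -/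

/-- comb length -/
def Lj (j : ℕ) : ℕ := 2 * j + 4
/-- index increment -/
def lj (j : ℕ) : ℕ := 2 * 2 ^ Lj j
/-- root index -/
def Kj (j : ℕ) : ℕ := lj j * Lj j

lemma prim_Lj : Primrec Lj :=
  prim_add (prim_mul (Primrec.const 2) Primrec.id) (Primrec.const 4)

lemma prim_lj : Primrec lj := prim_mul (Primrec.const 2) (prim_two_pow prim_Lj)

lemma prim_Kj : Primrec Kj := prim_mul prim_lj prim_Lj

/-- the run of machine `j` -/
def runJ (P q : List Bool → ℕ → ℕ) (j s : ℕ) : List Frame × List (List Bool) :=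
  run (Lj j) (lj j) (Kj j) (chkF (Lj j) P q) s

lemma comp_runJ {P q : List Bool → ℕ → ℕ} (hP : Computable₂ P) (hq : Computable₂ q) :
    Computable₂ (runJ P q) := by
  refine Computable₂.mk ?_
  have hc := comp_chkF (α := ℕ × ℕ) (L := fun x => Lj x.1) (prim_Lj.comp Primrec.fst) hP hq
  have h := comp_run (α := ℕ × ℕ) (L := fun x => Lj x.1) (l := fun x => lj x.1)
    (k := fun x => Kj x.1) (c := fun x => chkF (Lj x.1) P q) (s := fun x => x.2)
    (prim_Lj.comp Primrec.fst) (prim_lj.comp Primrec.fst) (prim_Kj.comp Primrec.fst)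
    hc Computable.snd
  exact h

/-- dyadic sum of the weights of those members of `Y` that extend `x` -/
def msumP (x : List Bool) (Y : List (List Bool)) : ℕ × ℕ :=
  Y.foldr (fun y r => bif decide (y.take x.length = x) then
    (r.1 * 2 ^ y.length + 2 ^ r.2, r.2 + y.length) else r) (0, 0)

/-- real version of `msumP` -/
noncomputable def msumR (x : List Bool) (Y : List (List Bool)) : ℝ :=
  (Y.map fun y => if y.take x.length = x then wt y else 0).sum

lemma msumP_eq (x : List Bool) (Y : List (List Bool)) :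
    ((msumP x Y).1 : ℝ) / 2 ^ (msumP x Y).2 = msumR x Y := by
  induction Y with
  | nil => simp [msumP, msumR]
  | cons y Y ih =>
    have e1 : msumP x (y :: Y) = bif decide (y.take x.length = x) then
      ((msumP x Y).1 * 2 ^ y.length + 2 ^ (msumP x Y).2, (msumP x Y).2 + y.length)
        else msumP x Y := rfl
    have e2 : msumR x (y :: Y) = (if y.take x.length = x then wt y else 0) + msumR x Y := by
      simp [msumR]
    rw [e1, e2, ← ih]
    by_cases h : y.take x.length = x
    · simp only [h, decide_true, cond_true, if_true, wt]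
      rw [one_div_pow]
      push_cast
      rw [pow_add]
      field_simp
      ring
    · simp [h]

lemma prim_msumP {α : Type*} [Primcodable α] {x : α → List Bool} {Y : α → List (List Bool)}
    (hx : Primrec x) (hY : Primrec Y) : Primrec fun a => msumP (x a) (Y a) := by
  unfold msumP
  refine Primrec.list_foldr (h := fun a (p : List Bool × (ℕ × ℕ)) =>
    bif decide (p.1.take (x a).length = x a) then
    (p.2.1 * 2 ^ p.1.length + 2 ^ p.2.2, p.2.2 + p.1.length) else p.2) hY (Primrec.const (0, 0)) ?_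
  refine Primrec₂.mk ?_
  have hy : Primrec fun z : α × (List Bool × (ℕ × ℕ)) => z.2.1 := Primrec.fst.comp Primrec.snd
  have hr : Primrec fun z : α × (List Bool × (ℕ × ℕ)) => z.2.2 := Primrec.snd.comp Primrec.snd
  have hx' : Primrec fun z : α × (List Bool × (ℕ × ℕ)) => x z.1 := hx.comp Primrec.fst
  refine Primrec.cond (prim_eq (prim_take (prim_length hx') hy) hx') ?_ hr
  exact Primrec.pair (prim_add (prim_mul (Primrec.fst.comp hr) (prim_two_pow (prim_length hy)))
    (prim_two_pow (Primrec.snd.comp hr))) (prim_add (Primrec.snd.comp hr) (prim_length hy))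

/-- `r + 2^j * m` for dyadic rationals `r`, `m`. -/
def comb (j : ℕ) (r m : ℕ × ℕ) : ℕ × ℕ :=
  (r.1 * 2 ^ m.2 + 2 ^ j * m.1 * 2 ^ r.2, r.2 + m.2)

/-- The `s`-th approximation restricted to the first `n` machines. -/
def tot (P q : List Bool → ℕ → ℕ) (x : List Bool) (s : ℕ) : ℕ → ℕ × ℕ
  | 0 => (0, 0)
  | j + 1 => comb j (tot P q x s j) (msumP x (runJ P q j s).2)

/-- real version -/
noncomputable def totR (P q : List Bool → ℕ → ℕ) (x : List Bool) (s n : ℕ) : ℝ :=
  ∑ j ∈ Finset.range n, 2 ^ j * msumR x (runJ P q j s).2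

lemma tot_eq (P q : List Bool → ℕ → ℕ) (x : List Bool) (s n : ℕ) :
    ((tot P q x s n).1 : ℝ) / 2 ^ (tot P q x s n).2 = totR P q x s n := by
  induction n with
  | zero => simp [tot, totR]
  | succ n ih =>
    have e2 : totR P q x s (n + 1) = totR P q x s n + 2 ^ n * msumR x (runJ P q n s).2 := by
      simp [totR, Finset.sum_range_succ]
    rw [e2, ← ih, ← msumP_eq, tot, comb]
    simp only
    push_cast
    rw [pow_add]
    field_simp

lemma prim_comb {α : Type*} [Primcodable α] {j : α → ℕ} {r m : α → ℕ × ℕ} (hj : Primrec j)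
    (hr : Primrec r) (hm : Primrec m) : Primrec fun a => comb (j a) (r a) (m a) := by
  unfold comb
  exact Primrec.pair (prim_add (prim_mul (Primrec.fst.comp hr) (prim_two_pow (Primrec.snd.comp hm)))
      (prim_mul (prim_mul (prim_two_pow hj) (Primrec.fst.comp hm))
        (prim_two_pow (Primrec.snd.comp hr)))) (prim_add (Primrec.snd.comp hr) (Primrec.snd.comp hm))

lemma comp_tot {P q : List Bool → ℕ → ℕ} (hP : Computable₂ P) (hq : Computable₂ q) :
    Computable fun a : List Bool × ℕ => tot P q a.1 a.2 a.2 := by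
  have hcomb : Primrec fun z : (ℕ × (ℕ × ℕ)) × (ℕ × ℕ) => comb z.1.1 z.1.2 z.2 :=
    prim_comb (Primrec.fst.comp Primrec.fst) (Primrec.snd.comp Primrec.fst) Primrec.snd
  have hmsum : Computable fun z : List Bool × List (List Bool) => msumP z.1 z.2 :=
    (prim_msumP Primrec.fst Primrec.snd).to_comp
  have hrun : Computable₂ (runJ P q) := comp_runJ hP hq
  have hstep : Computable₂ fun (a : List Bool × ℕ) (p : ℕ × (ℕ × ℕ)) =>
      comb p.1 p.2 (msumP a.1 (runJ P q p.1 a.2).2) := by
    refine Computable₂.mk ?_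
    have hj : Computable fun z : (List Bool × ℕ) × (ℕ × (ℕ × ℕ)) => z.2.1 :=
      Computable.fst.comp Computable.snd
    have hs : Computable fun z : (List Bool × ℕ) × (ℕ × (ℕ × ℕ)) => z.1.2 :=
      Computable.snd.comp Computable.fst
    have hx : Computable fun z : (List Bool × ℕ) × (ℕ × (ℕ × ℕ)) => z.1.1 :=
      Computable.fst.comp Computable.fst
    have hY : Computable fun z : (List Bool × ℕ) × (ℕ × (ℕ × ℕ)) => (runJ P q z.2.1 z.1.2).2 :=
      Computable.snd.comp (hrun.comp hj hs)
    have hm := hmsum.comp (Computable.pair hx hY)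
    have h := hcomb.to_comp.comp (Computable.pair Computable.snd hm)
    exact h
  have h1 : Computable fun a : List Bool × ℕ => Nat.rec (motive := fun _ => ℕ × ℕ) ((0, 0) : ℕ × ℕ)
      (fun j IH => comb j IH (msumP a.1 (runJ P q j a.2).2)) a.2 :=
    Computable.nat_rec Computable.snd (Computable.const (0, 0)) hstep
  refine h1.of_eq fun a => ?_
  have key : ∀ n, Nat.rec (motive := fun _ => ℕ × ℕ) ((0, 0) : ℕ × ℕ)
      (fun j IH => comb j IH (msumP a.1 (runJ P q j a.2).2)) n = tot P q a.1 a.2 n := by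
    intro n
    induction n with
    | zero => rfl
    | succ n ih => simp only [tot]; rw [← ih]
  exact key a.2

/-! ### analytic properties -/

lemma msumR_nonneg (x : List Bool) (Y : List (List Bool)) : 0 ≤ msumR x Y := by
  unfold msumR
  apply List.sum_nonneg
  intro r hr
  obtain ⟨y, _, rfl⟩ := List.mem_map.1 hr
  split_ifs
  · exact (wt_pos y).le
  · exact le_rfl

lemma msumR_nil (Y : List (List Bool)) : msumR [] Y = (Y.map wt).sum := by
  simp [msumR]

lemma msumR_split (x : List Bool) (Y : List (List Bool)) :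
    msumR (x ++ [false]) Y + msumR (x ++ [true]) Y ≤ msumR x Y := by
  induction Y with
  | nil => simp [msumR]
  | cons y Y ih =>
    have e : ∀ x : List Bool, msumR x (y :: Y) =
      (if y.take x.length = x then wt y else 0) + msumR x Y := by intro x; simp [msumR]
    rw [e, e, e]
    have hw := wt_pos y
    have hb : ∀ b : Bool, y.take (x ++ [b]).length = x ++ [b] → y.take x.length = x := by
      intro b h
      have := congrArg (List.take x.length) h
      rwa [List.take_take, List.take_left, min_eq_left (by simp)] at this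
    have hne : ¬ (y.take (x ++ [false]).length = x ++ [false] ∧
        y.take (x ++ [true]).length = x ++ [true]) := by
      rintro ⟨h1, h2⟩
      have e1 : (x ++ [false]).length = (x ++ [true]).length := by simp
      rw [e1, h2] at h1
      simp at h1
    by_cases h1 : y.take (x ++ [false]).length = x ++ [false]
    · have h2 : ¬ y.take (x ++ [true]).length = x ++ [true] := fun h => hne ⟨h1, h⟩
      have h3 := hb _ h1
      rw [if_pos h1, if_neg h2, if_pos h3]
      linarith
    · by_cases h2 : y.take (x ++ [true]).length = x ++ [true]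
      · have h3 := hb _ h2
        rw [if_neg h1, if_pos h2, if_pos h3]
        linarith
      · rw [if_neg h1, if_neg h2]
        split_ifs <;> linarith

lemma wt_le_msumR {y : List Bool} {Y : List (List Bool)} (h : y ∈ Y) : wt y ≤ msumR y Y := by
  unfold msumR
  have : wt y ∈ (Y.map fun z => if z.take y.length = y then wt z else 0) := by
    refine List.mem_map.2 ⟨y, h, ?_⟩
    simp
  refine List.single_le_sum ?_ _ this
  intro r hr
  obtain ⟨z, _, rfl⟩ := List.mem_map.1 hr
  split_ifs
  · exact (wt_pos z).le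
  · exact le_rfl

lemma step_snd (L l K : ℕ) (c : ℕ → Bool) (σ : List Frame × List (List Bool)) :
    (step L l K c σ).2 = σ.2 ∨ ∃ y, (step L l K c σ).2 = y :: σ.2 := by
  rcases step_cases L l K c σ with ⟨h, _⟩ | ⟨pre, F, suf, _, _, _, _, h⟩
  · left; rw [h]
  · right; rw [h]; exact ⟨_, rfl⟩

lemma msumR_run_mono (P q : List Bool → ℕ → ℕ) (j : ℕ) (x : List Bool) :
    Monotone fun s => msumR x (runJ P q j s).2 := by
  apply monotone_nat_of_le_succ
  intro s
  have : (runJ P q j (s + 1)).2 = (runJ P q j s).2 ∨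
      ∃ y, (runJ P q j (s + 1)).2 = y :: (runJ P q j s).2 := step_snd _ _ _ _ _
  rcases this with h | ⟨y, h⟩
  · rw [h]
  · rw [h]
    have e : msumR x (y :: (runJ P q j s).2) =
      (if y.take x.length = x then wt y else 0) + msumR x (runJ P q j s).2 := by simp [msumR]
    rw [e]
    have hw := wt_pos y
    split_ifs <;> linarith

lemma runJ_mem_mono (P q : List Bool → ℕ → ℕ) (j : ℕ) {s t : ℕ} (h : s ≤ t) {y : List Bool}
    (hy : y ∈ (runJ P q j s).2) : y ∈ (runJ P q j t).2 := by
  induction t, h using Nat.le_induction with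
  | base => exact hy
  | succ t ht ih =>
    have : (runJ P q j (t + 1)).2 = (runJ P q j t).2 ∨
      ∃ y, (runJ P q j (t + 1)).2 = y :: (runJ P q j t).2 := step_snd _ _ _ _ _
    rcases this with h | ⟨z, h⟩
    · rw [h]; exact ih
    · rw [h]; exact List.mem_cons_of_mem _ ih

lemma totR_mono (P q : List Bool → ℕ → ℕ) (x : List Bool) :
    Monotone fun s => totR P q x s s := by
  apply monotone_nat_of_le_succ
  intro s
  unfold totR
  rw [Finset.sum_range_succ]
  have h1 : ∑ j ∈ Finset.range s, 2 ^ j * msumR x (runJ P q j s).2 ≤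
      ∑ j ∈ Finset.range s, 2 ^ j * msumR x (runJ P q j (s + 1)).2 := by
    apply Finset.sum_le_sum
    intro j _
    exact mul_le_mul_of_nonneg_left (msumR_run_mono P q j x (Nat.le_succ s)) (by positivity)
  have h2 : 0 ≤ 2 ^ s * msumR x (runJ P q s (s + 1)).2 :=
    mul_nonneg (by positivity) (msumR_nonneg _ _)
  linarith

section

variable {M : List Bool → ℝ} {P q : List Bool → ℕ → ℕ}

lemma mass_runJ_le (hDM : ∀ s x, (P x s : ℝ) / q x s ≤ M x) (hq : ∀ x t, 0 < q x t) (j s : ℕ) :
    msumR [] (runJ P q j s).2 ≤ 8 / 2 ^ Lj j := by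
  rw [msumR_nil]
  have hL : 2 ≤ Lj j := by unfold Lj; omega
  exact (run_mass_le (D := fun s x => (P x s : ℝ) / q x s) (by omega) (tauOK hL) hDM
    (chkF_ok _ P q hq) s).trans (tau_K_le hL)

lemma totR_nil_le (hDM : ∀ s x, (P x s : ℝ) / q x s ≤ M x) (hq : ∀ x t, 0 < q x t) (s n : ℕ) :
    totR P q [] s n ≤ 1 := by
  have h1 : ∀ n, totR P q [] s n ≤ 1 - (1 / 2) ^ n := by
    intro n
    induction n with
    | zero => simp [totR]
    | succ n ih =>
      have e2 : totR P q [] s (n + 1) = totR P q [] s n + 2 ^ n * msumR [] (runJ P q n s).2 := by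
        simp [totR, Finset.sum_range_succ]
      rw [e2]
      have h2 := mass_runJ_le hDM hq n s
      have h3 : (2 : ℝ) ^ n * msumR [] (runJ P q n s).2 ≤ 2 ^ n * (8 / 2 ^ Lj n) :=
        mul_le_mul_of_nonneg_left h2 (by positivity)
      have h4 : (2 : ℝ) ^ n * (8 / 2 ^ Lj n) = (1 / 2) ^ n * (1 / 2) := by
        unfold Lj
        rw [pow_add, pow_mul, one_div_pow]
        have : (2 : ℝ) ^ n ≠ 0 := by positivity
        have h5 : ((2 : ℝ) ^ 2) ^ n = 2 ^ n * 2 ^ n := by
          rw [← mul_pow]; norm_num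
        rw [h5]
        field_simp
        norm_num
      rw [pow_succ]
      linarith
  have : (0 : ℝ) ≤ (1 / 2) ^ n := by positivity
  linarith [h1 n]

lemma totR_le_one (hDM : ∀ s x, (P x s : ℝ) / q x s ≤ M x) (hq : ∀ x t, 0 < q x t)
    (x : List Bool) (s n : ℕ) : totR P q x s n ≤ 1 := by
  have hsm : ∀ (x : List Bool), totR P q x s n ≤ totR P q [] s n := by
    intro x
    induction x using List.reverseRecOn with
    | nil => exact le_rfl
    | append_singleton x b ih =>
      refine le_trans ?_ ih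
      unfold totR
      apply Finset.sum_le_sum
      intro j _
      apply mul_le_mul_of_nonneg_left _ (by positivity)
      have h1 := msumR_split x (runJ P q j s).2
      have h2 := msumR_nonneg (x ++ [false]) (runJ P q j s).2
      have h3 := msumR_nonneg (x ++ [true]) (runJ P q j s).2
      cases b <;> linarith
  exact (hsm x).trans (totR_nil_le hDM hq s n)

/-- The semimeasure. -/
noncomputable def nu (P q : List Bool → ℕ → ℕ) (x : List Bool) : ℝ := ⨆ s, totR P q x s s

lemma nu_tendsto (hDM : ∀ s x, (P x s : ℝ) / q x s ≤ M x) (hq : ∀ x t, 0 < q x t)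
    (x : List Bool) : Tendsto (fun s => totR P q x s s) atTop (𝓝 (nu P q x)) := by
  apply tendsto_atTop_ciSup (totR_mono P q x)
  refine ⟨1, ?_⟩
  rintro _ ⟨s, rfl⟩
  exact totR_le_one hDM hq x s s

lemma nu_semimeasure (hDM : ∀ s x, (P x s : ℝ) / q x s ≤ M x) (hq : ∀ x t, 0 < q x t) :
    IsSemimeasure (nu P q) := by
  constructor
  · intro x
    refine ge_of_tendsto' (nu_tendsto hDM hq x) fun s => ?_
    exact Finset.sum_nonneg fun j _ => mul_nonneg (by positivity) (msumR_nonneg _ _)
  · exact le_of_tendsto' (nu_tendsto hDM hq []) fun s => totR_le_one hDM hq [] s s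
  · intro x
    refine le_of_tendsto_of_tendsto' ((nu_tendsto hDM hq _).add (nu_tendsto hDM hq _))
      (nu_tendsto hDM hq x) fun s => ?_
    unfold totR
    rw [← Finset.sum_add_distrib]
    apply Finset.sum_le_sum
    intro j _
    rw [← mul_add]
    exact mul_le_mul_of_nonneg_left (msumR_split _ _) (by positivity)

lemma nu_lsc (hDM : ∀ s x, (P x s : ℝ) / q x s ≤ M x) (hq : ∀ x t, 0 < q x t)
    (hPc : Computable₂ P) (hqc : Computable₂ q) : LowerSemicomputable (nu P q) := by
  have hc := comp_tot hPc hqc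
  have key : ∀ x t, (((Int.ofNat (tot P q x t t).1 : ℤ) : ℝ)) / ((2 ^ (tot P q x t t).2 : ℕ) : ℝ) =
      totR P q x t t := by
    intro x t
    rw [← tot_eq]
    simp
  refine ⟨fun x t => Int.ofNat (tot P q x t t).1, fun x t => 2 ^ (tot P q x t t).2, ?_, ?_, ?_,
    ?_, ?_⟩
  · exact (prim_ofNat.to_comp.comp (Computable.fst.comp hc)).to₂
  · exact ((prim_two_pow (α := ℕ) Primrec.id).to_comp.comp (Computable.snd.comp hc)).to₂
  · intro x t; positivity
  · intro x
    have := totR_mono P q x
    convert this using 2 with t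
    exact key x t
  · intro x
    have := nu_tendsto hDM hq x
    convert this using 2 with t
    exact key x t

lemma le_nu (hDM : ∀ s x, (P x s : ℝ) / q x s ≤ M x) (hq : ∀ x t, 0 < q x t) {j s : ℕ}
    {y : List Bool} (hy : y ∈ (runJ P q j s).2) : 2 ^ j * wt y ≤ nu P q y := by
  refine ge_of_tendsto (nu_tendsto hDM hq y) ?_
  filter_upwards [eventually_ge_atTop (max s (j + 1))] with t ht
  have h1 : s ≤ t := le_trans (le_max_left _ _) ht
  have h2 : j < t := lt_of_lt_of_le (Nat.lt_succ_self j) (le_trans (le_max_right _ _) ht)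
  have h3 := wt_le_msumR (runJ_mem_mono P q j h1 hy)
  have h4 : 2 ^ j * msumR y (runJ P q j t).2 ≤ totR P q y t t := by
    unfold totR
    exact Finset.single_le_sum (f := fun j => 2 ^ j * msumR y (runJ P q j t).2)
      (fun j _ => mul_nonneg (by positivity) (msumR_nonneg _ _)) (Finset.mem_range.2 h2)
  have h5 : (2 : ℝ) ^ j * wt y ≤ 2 ^ j * msumR y (runJ P q j t).2 :=
    mul_le_mul_of_nonneg_left h3 (by positivity)
  linarith

end

/-- the weight function is a lower semicomputable semimeasure. -/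
lemma wt_semimeasure : IsSemimeasure wt := by
  constructor
  · exact fun x => (wt_pos x).le
  · simp [wt]
  · intro x
    simp only [wt, List.length_append, List.length_singleton, pow_succ]
    linarith

lemma wt_lsc : LowerSemicomputable wt := by
  refine ⟨fun _ _ => 1, fun x _ => 2 ^ x.length, ?_, ?_, ?_, ?_, ?_⟩
  · exact (Computable.const (1 : ℤ)).to₂
  · exact (prim_two_pow (prim_length (Primrec.fst (α := List Bool) (β := ℕ)))).to_comp.to₂
  · intro x t; positivity
  · intro x
    exact monotone_const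
  · intro x
    have : (fun _ : ℕ => (((1 : ℤ) : ℝ)) / ((2 ^ x.length : ℕ) : ℝ)) = fun _ => wt x := by
      funext t
      simp [wt]
    simp only [this]
    exact tendsto_const_nhds

/-- Main theorem, without randomness: a sequence along which `M` is at most a constant times the
uniform measure, and along which the conditional probabilities do not converge to `1/2`. -/
theorem exists_bad (M : List Bool → ℝ) (hM : IsUniversal M) : ∃ (ω : ℕ → Bool) (C : ℝ),
    (∀ n, M (pre ω n) ≤ C * (1 / 2 : ℝ) ^ n) ∧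
    ¬ Tendsto (fun n => M (pre ω (n + 1)) / M (pre ω n)) atTop (𝓝 (1 / 2)) := by
  obtain ⟨hsm, ⟨p, q, hp, hq, hq0, hmono, hlim⟩, hdom⟩ := hM
  -- natural number numerators
  let P : List Bool → ℕ → ℕ := fun x t => (p x t).toNat
  have hP : Computable₂ P := prim_toNat.to_comp.comp₂ hp
  have hPmax : ∀ x t, (P x t : ℝ) / q x t = max ((p x t : ℝ) / q x t) 0 := by
    intro x t
    have h0 : (0 : ℝ) < q x t := by exact_mod_cast hq0 x t
    have h1 : (P x t : ℝ) = max (p x t : ℝ) 0 := by
      have : ((P x t : ℕ) : ℤ) = max (p x t) 0 := Int.toNat_eq_max _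
      have h2 : (((P x t : ℕ) : ℤ) : ℝ) = ((max (p x t) 0 : ℤ) : ℝ) := by rw [this]
      push_cast at h2
      exact h2
    rw [h1]
    rcases le_total (p x t : ℝ) 0 with h | h
    · have h3 : (p x t : ℝ) / q x t ≤ 0 := div_nonpos_of_nonpos_of_nonneg h h0.le
      rw [max_eq_right h, max_eq_right h3, zero_div]
    · have h3 : 0 ≤ (p x t : ℝ) / q x t := div_nonneg h h0.le
      rw [max_eq_left h, max_eq_left h3]
  have hmonoP : ∀ x, Monotone fun t => (P x t : ℝ) / q x t := by
    intro x s t hst
    simp only [hPmax]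
    exact max_le_max (hmono x hst) le_rfl
  have hlimP : ∀ x, Tendsto (fun t => (P x t : ℝ) / q x t) atTop (𝓝 (M x)) := by
    intro x
    simp only [hPmax]
    have := (hlim x).max (tendsto_const_nhds (x := (0 : ℝ)))
    rwa [max_eq_left (hsm.nonneg x)] at this
  have hDM : ∀ s x, (P x s : ℝ) / q x s ≤ M x := fun s x =>
    (hmonoP x).ge_of_tendsto (hlimP x) s
  obtain ⟨c, hc, hcν⟩ := hdom _ (nu_semimeasure hDM hq0) (nu_lsc hDM hq0 hP hq)
  obtain ⟨c', hc', hcw⟩ := hdom _ wt_semimeasure wt_lsc
  have hpos : ∀ x, 0 < M x := fun x => lt_of_lt_of_le (mul_pos hc' (wt_pos x)) (hcw x)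
  obtain ⟨j, hj⟩ := pow_unbounded_of_one_lt (4 / c) (by norm_num : (1 : ℝ) < 2)
  have hL : 2 ≤ Lj j := by unfold Lj; omega
  have hyp : Hyp (Lj j) (lj j) (Kj j) (tau (Lj j)) M (fun s x => (P x s : ℝ) / q x s)
      (chkF (Lj j) P q) := by
    refine ⟨by omega, tauOK hL, hsm, hmonoP, hlimP, chkF_ok _ P q hq0, ?_⟩
    intro s y hy
    have h1 := le_nu hDM hq0 (j := j) (s := s) hy
    have h2 := hcν y
    have h3 : 4 < c * 2 ^ j := by
      rw [div_lt_iff₀ hc] at hj; linarith
    have h4 := wt_pos y
    calc 4 * wt y < c * 2 ^ j * wt y := mul_lt_mul_of_pos_right h3 h4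
      _ = c * (2 ^ j * wt y) := by ring
      _ ≤ c * nu P q y := mul_le_mul_of_nonneg_left h1 hc.le
      _ ≤ M y := h2
  obtain ⟨ω, h1, h2⟩ := hyp.main hpos
  exact ⟨ω, _, h1, h2⟩

end Pool.Agent.SemConv
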