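import Pool.Agent.Lib.MP_b38472_lc.Comb

/-!
Combinatorial analysis of the payment machine, part 2: runs.
-/

namespace Pool.Agent.SemConv

open Filter Topology

lemma least_succ (c : ℕ → Bool) (n : ℕ) : least c (n + 1) =
    match least c n with
    | some i => some i
    | none => if c n = true then some n else none := by
  rw [least]
  cases least c n with
  | none => cases c n <;> rfl
  | some i => rfl

lemma least_none {c : ℕ → Bool} : ∀ {n : ℕ}, least c n = none → ∀ i < n, c i = false := by
  intro n
  induction n with
  | zero => intro _ i hi; omega
  | succ n ih =>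
    intro h i hi
    rw [least_succ] at h
    cases hl : least c n with
    | some j => rw [hl] at h; simp at h
    | none =>
      rw [hl] at h
      rcases Nat.lt_succ_iff_lt_or_eq.1 hi with h' | h'
      · exact ih hl i h'
      · subst h'
        cases hc : c i with
        | false => rfl
        | true => simp [hc] at h

lemma least_some {c : ℕ → Bool} : ∀ {n i : ℕ}, least c n = some i →
    i < n ∧ c i = true ∧ ∀ j < i, c j = false := by
  intro n
  induction n with
  | zero => intro i h; simp [least] at h
  | succ n ih =>
    intro i h
    rw [least_succ] at h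
    cases hl : least c n with
    | some j =>
      rw [hl] at h
      simp only [Option.some.injEq] at h
      subst h
      obtain ⟨h1, h2, h3⟩ := ih hl
      exact ⟨by omega, h2, h3⟩
    | none =>
      rw [hl] at h
      cases hc : c n with
      | false => simp [hc] at h
      | true =>
        simp only [hc, if_true, Option.some.injEq] at h
        subst h
        exact ⟨by omega, hc, least_none hl⟩

/-- Description of a step of the machine. -/
lemma step_cases (L l K : ℕ) (c : ℕ → Bool) (σ : List Frame × List (List Bool)) :
    (step L l K c σ = σ ∧ ((∀ i ≤ σ.1.length, c i = false) ∨ (c 0 = true) ∨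
      ∃ pre F suf, σ.1 = pre ++ F :: suf ∧ L ≤ F.1 ∧ c (pre.length + 1) = true ∧
        ∀ i ≤ pre.length, c i = false)) ∨
    ∃ pre F suf, σ.1 = pre ++ F :: suf ∧ F.1 < L ∧ c (pre.length + 1) = true ∧
      (∀ i ≤ pre.length, c i = false) ∧
      step L l K c σ = (pre ++ nextFrame L F (pay L suf) ::
        List.replicate (idx l K (pre ++ [nextFrame L F (pay L suf)])) zf,
        str L (pre ++ nextFrame L F (pay L suf) ::
          List.replicate (idx l K (pre ++ [nextFrame L F (pay L suf)])) zf) :: σ.2) := by
  obtain ⟨st, Y⟩ := σ
  simp only
  cases hl : least c (st.length + 1) with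
  | none =>
    left
    refine ⟨by simp [step, stepOpt, hl], Or.inl fun i hi => least_none hl i (by omega)⟩
  | some i =>
    obtain ⟨h1, h2, h3⟩ := least_some hl
    cases i with
    | zero =>
      left
      refine ⟨by simp [step, stepOpt, hl], Or.inr (Or.inl h2)⟩
    | succ i =>
      have hi : i < st.length := by omega
      obtain ⟨pre, F, suf, hst, hlen⟩ : ∃ pre F suf, st = pre ++ F :: suf ∧ pre.length = i := by
        refine ⟨st.take i, st[i], st.drop (i + 1), ?_, ?_⟩
        · rw [← List.drop_eq_getElem_cons hi, List.take_append_drop]
        · simp [hi.le]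
      subst hst
      subst hlen
      have hget : (pre ++ F :: suf)[pre.length]? = some F := by simp
      by_cases hF : F.1 < L
      · right
        refine ⟨pre, F, suf, rfl, hF, h2, fun j hj => h3 j (by omega), ?_⟩
        have e1 : (pre ++ F :: suf).take pre.length = pre := by simp
        have e2 : (pre ++ F :: suf).drop (pre.length + 1) = suf := by simp
        simp only [step, stepOpt, hl, Option.bind_some, advance, hget, newStack, e1, e2, hF,
          decide_true, cond_true, List.append_assoc, List.singleton_append]
      · left
        refine ⟨?_, Or.inr (Or.inr ⟨pre, F, suf, rfl, by omega, h2, fun j hj => h3 j (by omega)⟩)⟩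
        simp only [step, stepOpt, hl, Option.bind_some, advance, hget, hF, decide_false,
          cond_false]

section

variable {L l K : ℕ} {τ : ℕ → ℝ} {M : List Bool → ℝ} {D : ℕ → List Bool → ℝ}
  {c : ℕ → List Frame → ℕ → Bool}

/-- The check function is correct. -/
def CheckOK (L : ℕ) (D : ℕ → List Bool → ℝ) (c : ℕ → List Frame → ℕ → Bool) : Prop :=
  ∀ s st i, c s st i = true ↔
    2 * wt (str L (st.take i)) * (1 + eR L (st.drop i)) < D s (str L (st.take i))

/-- Invariants that do not need any assumption on domination. -/
structure Inv (L l K : ℕ) (τ : ℕ → ℝ) (M : List Bool → ℝ)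
    (σ : List Frame × List (List Bool)) : Prop where
  good : GoodPre L l τ M K [] σ.1
  leaf : idx l K σ.1 = 0
  mem : str L σ.1 ∈ σ.2
  mass : (σ.2.map wt).sum = eR L σ.1

lemma inv_init : Inv L l K τ M (init L K) := by
  constructor
  · exact goodPre_zeros K []
  · exact idx_zeros l K
  · simp [init]
  · simp [init, eR_zeros]

lemma inv_step (hL : 1 ≤ L) (hτ : TauOK L l τ) (hDM : ∀ s x, D s x ≤ M x)
    (hc : CheckOK L D c) (s : ℕ) {σ : List Frame × List (List Bool)}
    (h : Inv L l K τ M σ) : Inv L l K τ M (step L l K (c s σ.1) σ) := by
  rcases step_cases L l K (c s σ.1) σ with ⟨h1, _⟩ | ⟨pre, F, suf, hst, hF, hcF, _, hstep⟩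
  · rwa [h1]
  · rw [hstep]
    set F' := nextFrame L F (pay L suf) with hF'
    have hgood := h.good
    have hleaf := h.leaf
    rw [hst] at hgood hleaf
    rw [goodPre_append, List.nil_append] at hgood
    rw [idx_append] at hleaf
    obtain ⟨hg1, hg2⟩ := hgood
    -- the completed child
    have hcomp : 2 * wt (str L pre ++ part L F.1) * (1 + eR L suf) <
        M (str L pre ++ part L F.1) := by
      have := (hc s σ.1 (pre.length + 1)).1 hcF
      rw [hst] at this
      have e1 : (pre ++ F :: suf).take (pre.length + 1) = pre ++ [F] := by
        simp [List.take_append]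
      have e2 : (pre ++ F :: suf).drop (pre.length + 1) = suf := by simp
      rw [e1, e2, str_append, str_cons, str_nil, List.append_nil] at this
      exact this.trans_le (hDM _ _)
    have hfr := frameOK_next hL hτ F suf _ _ hg2 hleaf hF hcomp
    constructor
    · -- good
      simp only
      rw [goodPre_append, List.nil_append]
      refine ⟨hg1, hg2.1, hfr, ?_⟩
      have : idx l K (pre ++ [F']) = nextk l (idx l K pre) F'.2.1 := by
        rw [idx_append, idx_cons, idx_nil]
      rw [this]
      exact goodPre_zeros _ _
    · simp only
      have : idx l K (pre ++ [F']) = nextk l (idx l K pre) F'.2.1 := by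
        rw [idx_append, idx_cons, idx_nil]
      rw [idx_append, idx_cons, this, idx_zeros]
    · simp
    · simp only [List.map_cons, List.sum_cons]
      rw [h.mass, hst]
      set Z := List.replicate (idx l K (pre ++ [F'])) zf with hZ
      have e1 := eR_append L pre (F' :: Z) (F :: suf)
      have e2 : eR L (F' :: Z) - eR L (F :: suf) = wt (part L F'.1) * wt (str L Z) := by
        rw [eR_cons, eR_cons, hF', acc_next, hZ, eR_zeros]
        ring
      rw [e2] at e1
      rw [str_append, str_cons, wt_append, wt_append]
      linarith

lemma inv_run (hL : 1 ≤ L) (hτ : TauOK L l τ) (hDM : ∀ s x, D s x ≤ M x)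
    (hc : CheckOK L D c) (s : ℕ) : Inv L l K τ M (run L l K c s) := by
  induction s with
  | zero => exact inv_init
  | succ s ih => exact inv_step hL hτ hDM hc s ih

/-- Total payment is bounded. -/
lemma run_mass_le (hL : 1 ≤ L) (hτ : TauOK L l τ) (hDM : ∀ s x, D s x ≤ M x)
    (hc : CheckOK L D c) (s : ℕ) : ((run L l K c s).2.map wt).sum ≤ τ K := by
  have h := inv_run (K := K) hL hτ hDM hc s
  rw [h.mass]
  exact eR_le hL hτ _ _ _ h.good h.leaf

/-- A stack prefix that is eventually present and not completed. -/
def Stable (L l K : ℕ) (c : ℕ → List Frame → ℕ → Bool) (p : List Frame) : Prop :=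
  ∃ s0, ∀ s ≥ s0, (∃ suf, (run L l K c s).1 = p ++ suf) ∧
    ∀ i ≤ p.length, c s (run L l K c s).1 i = false

lemma stable_nil (hM : IsSemimeasure M) (hDM : ∀ s x, D s x ≤ M x)
    (hc : CheckOK L D c) : Stable L l K c [] := by
  refine ⟨0, fun s _ => ⟨⟨_, rfl⟩, ?_⟩⟩
  intro i hi
  have hi0 : i = 0 := by simpa using hi
  subst hi0
  by_contra hne
  have ht : c s (run L l K c s).1 0 = true := by simpa using hne
  have := (hc _ _ _).1 ht
  simp only [List.take_zero, str_nil, wt_nil, List.drop_zero] at this
  have h1 := hDM s []
  have h2 := hM.root_le_one
  have h3 := eR_nonneg L (run L l K c s).1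
  linarith

/-- hypotheses for the main analysis -/
structure Hyp (L l K : ℕ) (τ : ℕ → ℝ) (M : List Bool → ℝ) (D : ℕ → List Bool → ℝ)
    (c : ℕ → List Frame → ℕ → Bool) : Prop where
  hL : 1 ≤ L
  hτ : TauOK L l τ
  hM : IsSemimeasure M
  mono : ∀ x, Monotone fun s => D s x
  lim : ∀ x, Tendsto (fun s => D s x) atTop (𝓝 (M x))
  check : CheckOK L D c
  dom : ∀ s, ∀ y ∈ (run L l K c s).2, 4 * wt y < M y

namespace Hyp

lemma le (h : Hyp L l K τ M D c) (s : ℕ) (x : List Bool) : D s x ≤ M x :=
  (h.mono x).ge_of_tendsto (h.lim x) s

lemma exists_gt (h : Hyp L l K τ M D c) {x : List Bool} {r : ℝ} (hr : r < M x) (s0 : ℕ) :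
    ∃ s ≥ s0, r < D s x := by
  have h1 : ∀ᶠ s in atTop, r < D s x := (h.lim x).eventually_const_lt hr
  have h2 : ∀ᶠ s in atTop, s0 ≤ s := eventually_ge_atTop s0
  obtain ⟨s, hs1, hs2⟩ := (h1.and h2).exists
  exact ⟨s, hs2, hs1⟩

lemma inv (h : Hyp L l K τ M D c) (s : ℕ) : Inv L l K τ M (run L l K c s) :=
  inv_run h.hL h.hτ h.le h.check s

/-- bounded monotone sequences of naturals are eventually constant. -/
lemma eventually_const (a : ℕ → ℕ) (B s0 : ℕ) (hb : ∀ s ≥ s0, a s ≤ B)
    (hm : ∀ s ≥ s0, a s ≤ a (s + 1)) : ∃ s1 ≥ s0, ∀ s ≥ s1, a s = a s1 := by
  have hm' : ∀ s ≥ s0, ∀ t ≥ s, a s ≤ a t := by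
    intro s hs t ht
    induction t, ht using Nat.le_induction with
    | base => exact le_rfl
    | succ t ht ih => exact ih.trans (hm t (by omega))
  by_contra hcon
  push Not at hcon
  have : ∀ n, ∃ s ≥ s0, n ≤ a s := by
    intro n
    induction n with
    | zero => exact ⟨s0, le_rfl, Nat.zero_le _⟩
    | succ n ih =>
      obtain ⟨s, hs, hn⟩ := ih
      obtain ⟨t, ht, hne⟩ := hcon s hs
      have := hm' s hs t ht
      exact ⟨t, by omega, by omega⟩
  obtain ⟨s, hs, hn⟩ := this (B + 1)
  have := hb s hs
  omega

lemma stable_step (h : Hyp L l K τ M D c) {p : List Frame} (hp : Stable L l K c p) :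
    ∃ F, Stable L l K c (p ++ [F]) := by
  obtain ⟨s0, hs0⟩ := hp
  -- the stack continues after `p`
  have hne : ∀ s ≥ s0, ∃ F suf, (run L l K c s).1 = p ++ F :: suf := by
    intro s hs
    obtain ⟨⟨suf, hsuf⟩, _⟩ := hs0 s hs
    cases suf with
    | cons F suf => exact ⟨F, suf, hsuf⟩
    | nil =>
      exfalso
      rw [List.append_nil] at hsuf
      have hidx : idx l K p = 0 := by rw [← hsuf]; exact (h.inv s).leaf
      have hall : ∀ t ≥ s, (run L l K c t).1 = p := by
        intro t ht
        obtain ⟨⟨suf, hsuf'⟩, _⟩ := hs0 t (le_trans hs ht)
        cases suf with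
        | nil => simpa using hsuf'
        | cons F suf =>
          exfalso
          have hg := (h.inv t).good
          rw [hsuf', goodPre_append] at hg
          have := hg.2.1
          omega
      have hmem := (h.inv s).mem
      rw [hsuf] at hmem
      have hgt := h.dom s _ hmem
      obtain ⟨t, ht, hgt'⟩ := h.exists_gt hgt s
      have hchk := (hs0 t (le_trans hs ht)).2 p.length le_rfl
      rw [hall t ht] at hchk
      have : c t p p.length = true := by
        rw [h.check]
        simp only [List.take_length, List.drop_length, eR_nil]
        linarith
      rw [this] at hchk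
      exact absurd hchk (by simp)
  -- the frame after p
  choose! G suf hG using hne
  have hGle : ∀ s ≥ s0, (G s).1 ≤ L := by
    intro s hs
    have hg := (h.inv s).good
    rw [hG s hs, goodPre_append] at hg
    exact hg.2.2.1.le
  have hstep : ∀ s ≥ s0, (G (s + 1) = G s) ∨
      ((G (s + 1)).1 = (G s).1 + 1) := by
    intro s hs
    have hchk := (hs0 s hs).2
    have hst := hG s hs
    have hst' := hG (s + 1) (by omega)
    change (step L l K (c s (run L l K c s).1) (run L l K c s)).1 = _ at hst'
    rcases step_cases L l K (c s (run L l K c s).1) (run L l K c s) with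
      ⟨h1, _⟩ | ⟨pre, F, suf', hst2, hF, hcF, _, hstep⟩
    · left
      rw [h1, hst] at hst'
      have := List.append_cancel_left hst'
      simp only [List.cons.injEq] at this
      exact this.1.symm
    · rw [hstep] at hst'
      simp only at hst'
      -- compare pre with p
      have hlen : p.length ≤ pre.length := by
        by_contra hlt
        push Not at hlt
        have := hchk (pre.length + 1) (by omega)
        rw [this] at hcF
        exact absurd hcF (by simp)
      have hst3 : pre ++ F :: suf' = p ++ G s :: suf s := by rw [← hst2, hst]
      rcases Nat.lt_or_eq_of_le hlen with hlt | heq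
      · left
        obtain ⟨q, hq⟩ : ∃ q, pre = (p ++ [G s]) ++ q := by
          have hpre : pre = (p ++ G s :: suf s).take pre.length := by
            rw [← hst3]; simp
          refine ⟨pre.drop (p.length + 1), ?_⟩
          have e1 : pre.take (p.length + 1) = p ++ [G s] := by
            rw [hpre, List.take_take, min_eq_left (by omega)]
            simp [List.take_append]
          rw [← e1, List.take_append_drop]
        rw [hq] at hst'
        simp only [List.append_assoc, List.cons_append, List.nil_append] at hst'
        have := List.append_cancel_left hst'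
        simp only [List.cons.injEq] at this
        exact this.1.symm
      · right
        obtain ⟨e1, e2⟩ := List.append_inj hst3 heq.symm
        simp only [List.cons.injEq] at e2
        obtain ⟨e2, _⟩ := e2
        rw [e1] at hst'
        have := List.append_cancel_left hst'
        simp only [List.cons.injEq] at this
        rw [← this.1, next_fst, e2]
  obtain ⟨s1, hs1, hconst⟩ := eventually_const (fun s => (G s).1) L s0 hGle (by
    intro s hs
    rcases hstep s hs with h1 | h1
    · simp [h1]
    · simp [h1])
  have hGconst : ∀ s ≥ s1, G s = G s1 := by
    intro s hs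
    induction s, hs using Nat.le_induction with
    | base => rfl
    | succ s hs ih =>
      rcases hstep s (by omega) with h1 | h1
      · rw [h1, ih]
      · exfalso
        have e1 : (G s).1 = (G s1).1 := hconst s hs
        have e2 : (G (s + 1)).1 = (G s1).1 := hconst (s + 1) (by omega)
        omega
  refine ⟨G s1, s1, fun s hs => ⟨⟨suf s, ?_⟩, ?_⟩⟩
  · rw [hG s (by omega), hGconst s hs]; simp
  · intro i hi
    rcases Nat.lt_or_eq_of_le hi with hlt | heq
    · exact (hs0 s (by omega)).2 i (by simp at hlt; omega)
    · simp only [List.length_append, List.length_singleton] at heq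
      subst heq
      by_contra hne
      have ht : c s (run L l K c s).1 (p.length + 1) = true := by simpa using hne
      -- a step in this situation
      have key : ∀ t ≥ s1, c t (run L l K c t).1 (p.length + 1) = true →
          run L l K c (t + 1) = run L l K c t ∧ L ≤ (G t).1 := by
        intro t htt hct
        have hchk := (hs0 t (by omega)).2
        have hst := hG t (by omega)
        have hst' := hG (t + 1) (by omega)
        change (step L l K (c t (run L l K c t).1) (run L l K c t)).1 = _ at hst'
        change step L l K (c t (run L l K c t).1) (run L l K c t) = _ ∧ _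
        rcases step_cases L l K (c t (run L l K c t).1) (run L l K c t) with
          ⟨h1, h2⟩ | ⟨pre, F, suf', hst2, hF, hcF, hsm, hstep⟩
        · refine ⟨h1, ?_⟩
          rcases h2 with h2 | h2 | ⟨pre, F, suf', hst2, hF, hcF, hsm⟩
          · exfalso
            have := h2 (p.length + 1) (by rw [hst]; simp)
            rw [this] at hct
            exact absurd hct (by simp)
          · exfalso
            have := hchk 0 (Nat.zero_le _)
            rw [this] at h2
            exact absurd h2 (by simp)
          · have hlen : pre.length = p.length := by
              rcases lt_trichotomy pre.length p.length with hlt | heq | hgt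
              · exfalso
                have := hchk (pre.length + 1) (by omega)
                rw [this] at hcF
                exact absurd hcF (by simp)
              · exact heq
              · exfalso
                have := hsm (p.length + 1) (by omega)
                rw [this] at hct
                exact absurd hct (by simp)
            have hst3 : pre ++ F :: suf' = p ++ G t :: suf t := by rw [← hst2, hst]
            obtain ⟨e1, e2⟩ := List.append_inj hst3 hlen
            simp only [List.cons.injEq] at e2
            rw [← e2.1]; exact hF
        · exfalso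
          rw [hstep] at hst'
          simp only at hst'
          have hlen : pre.length = p.length := by
            rcases lt_trichotomy pre.length p.length with hlt | heq | hgt
            · exfalso
              have := hchk (pre.length + 1) (by omega)
              rw [this] at hcF
              exact absurd hcF (by simp)
            · exact heq
            · exfalso
              have := hsm (p.length + 1) (by omega)
              rw [this] at hct
              exact absurd hct (by simp)
          have hst3 : pre ++ F :: suf' = p ++ G t :: suf t := by rw [← hst2, hst]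
          obtain ⟨e1, e2⟩ := List.append_inj hst3 hlen
          simp only [List.cons.injEq] at e2
          rw [e1] at hst'
          have := List.append_cancel_left hst'
          simp only [List.cons.injEq] at this
          have e3 := congrArg Prod.fst this.1
          rw [next_fst, e2.1] at e3
          have e4 := hGconst t htt
          have e5 := hGconst (t + 1) (by omega)
          rw [e4, e5] at e3
          omega
      have hconstrun : ∀ t ≥ s, run L l K c t = run L l K c s ∧
          c t (run L l K c t).1 (p.length + 1) = true := by
        intro t hts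
        induction t, hts using Nat.le_induction with
        | base => exact ⟨rfl, ht⟩
        | succ t hts ih =>
          obtain ⟨ih1, ih2⟩ := ih
          obtain ⟨k1, _⟩ := key t (by omega) ih2
          refine ⟨by rw [k1, ih1], ?_⟩
          rw [k1]
          rw [h.check] at ih2 ⊢
          exact ih2.trans_le (h.mono _ (Nat.le_succ t))
      obtain ⟨_, hLG⟩ := key s hs ht
      have hst := hG s (by omega)
      have hinv := h.inv s
      have hg := hinv.good
      have hlf := hinv.leaf
      rw [hst, goodPre_append, List.nil_append] at hg
      obtain ⟨hg1, hk, hF, hg2⟩ := hg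
      have hGL : (G s).1 = L := le_antisymm hF.le hLG
      have hsum := hF.sum (by rw [hGL]; exact h.hL)
      have hlast := (h.check _ _ _).1 ht
      have e1 : (run L l K c s).1.take (p.length + 1) = p ++ [G s] := by
        rw [hst]; simp [List.take_append]
      have e2 : (run L l K c s).1.drop (p.length + 1) = suf s := by
        rw [hst]; simp
      rw [e1, e2, str_append, str_cons, str_nil, List.append_nil, wt_append] at hlast
      have hlast' := hlast.trans_le (h.le _ _)
      have htop := Msum_top h.hM L (str L p)
      rw [Msum_succ] at htop
      have hW := W_top L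
      rw [W_succ] at hW
      rw [hGL] at hsum hlast'
      have heR : eR L (G s :: suf s) = acc (G s) + wt (part L L) * eR L (suf s) := by
        rw [eR_cons, hGL]
      have hfin : 2 * wt (str L p) * (1 + eR L (G s :: suf s)) < M (str L p) := by
        rw [heR, ← hW]
        calc 2 * wt (str L p) * (W L L + wt (part L L) + (acc (G s) + wt (part L L) * eR L (suf s)))
            = 2 * wt (str L p) * (W L L + acc (G s)) +
              2 * (wt (str L p) * wt (part L L)) * (1 + eR L (suf s)) := by ring
          _ < Msum L M (str L p) L + M (str L p ++ part L L) := add_lt_add hsum hlast'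
          _ ≤ _ := htop
      obtain ⟨t, hts, hgt⟩ := h.exists_gt hfin s
      have hrun := (hconstrun t hts).1
      have hchk := (hs0 t (by omega)).2 p.length le_rfl
      rw [hrun] at hchk
      have : c t (run L l K c s).1 p.length = true := by
        rw [h.check]
        have e3 : (run L l K c s).1.take p.length = p := by rw [hst]; simp
        have e4 : (run L l K c s).1.drop p.length = G s :: suf s := by rw [hst]; simp
        rw [e3, e4]
        exact hgt
      rw [this] at hchk
      exact absurd hchk (by simp)

end Hyp

end

end Pool.Agent.SemConv
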