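import Pool.Agent.Lib.MP_b38472_lc.Nu

/-!
A sequence along which a universal semimeasure is at most a constant times the uniform measure
is Martin-Löf random.
-/

namespace Pool.Agent.SemConv

open Filter Topology MeasureTheory

/-! ### measure of cylinders -/

lemma cyl_eq (v : List Bool) : cyl v =
    Set.pi (Finset.range v.length) (fun i => {v.getD i false}) := by
  ext ω
  simp only [cyl, Set.mem_ofPred_eq, Set.mem_pi, Finset.coe_range, Set.mem_Iio,
    Set.mem_singleton_iff]
  constructor
  · intro h i hi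
    have h1 : (pre ω v.length)[i]'(by rw [pre_length]; exact hi) = ω i := pre_getElem _ _ _ _
    rw [List.getD_eq_getElem _ _ hi, ← h1]
    congr 1
  · intro h
    apply List.ext_getElem
    · rw [pre_length]
    · intro i h1 h2
      rw [pre_getElem, h i h2, List.getD_eq_getElem _ _ h2]

lemma coin_cyl (v : List Bool) : coin (cyl v) = (2⁻¹ : ENNReal) ^ v.length := by
  rw [cyl_eq, coin, Measure.infinitePi_pi]
  · have : ∀ i ∈ Finset.range v.length, (PMF.uniformOfFintype Bool).toMeasure
        ({v.getD i false} : Set Bool) = 2⁻¹ := by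
      intro i _
      rw [PMF.toMeasure_apply_singleton _ _ (measurableSet_singleton _)]
      simp
    rw [Finset.prod_congr rfl this]
    simp
  · intro i _
    exact measurableSet_singleton _

lemma measurableSet_cyl (v : List Bool) : MeasurableSet (cyl v) := by
  rw [cyl_eq]
  exact MeasurableSet.pi (Finset.countable_toSet _) fun i _ => measurableSet_singleton _

lemma cyl_disjoint {v w : List Bool} (hl : v.length = w.length) (h : v ≠ w) :
    Disjoint (cyl v) (cyl w) := by
  rw [Set.disjoint_left]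
  intro ω h1 h2
  apply h
  simp only [cyl, Set.mem_ofPred_eq] at h1 h2
  rw [← h1, ← h2, hl]

/-! ### all strings of a given length -/

/-- the list of all binary strings of length `m` -/
def allS : ℕ → List (List Bool)
  | 0 => [[]]
  | m + 1 => (allS m).map (List.cons false) ++ (allS m).map (List.cons true)

lemma mem_allS {m : ℕ} {v : List Bool} (h : v ∈ allS m) : v.length = m := by
  induction m generalizing v with
  | zero => simp [allS] at h; simp [h]
  | succ m ih =>
    simp only [allS, List.mem_append, List.mem_map] at h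
    rcases h with ⟨w, hw, rfl⟩ | ⟨w, hw, rfl⟩ <;> simp [ih hw]

lemma allS_nodup (m : ℕ) : (allS m).Nodup := by
  induction m with
  | zero => simp [allS]
  | succ m ih =>
    rw [allS, List.nodup_append']
    refine ⟨ih.map (List.cons_injective), ih.map (List.cons_injective), ?_⟩
    intro v h1 h2
    simp only [List.mem_map] at h1 h2
    obtain ⟨w, _, rfl⟩ := h1
    obtain ⟨w', _, h⟩ := h2
    simp at h

lemma allS_length (m : ℕ) : (allS m).length = 2 ^ m := by
  induction m with
  | zero => simp [allS]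
  | succ m ih => simp [allS, ih, pow_succ]; ring

section

variable (W : ℕ → ℕ → List Bool → Bool)

/-- some prefix of `y` has been enumerated into the `n`-th set by stage `s` -/
def hit (s n : ℕ) (y : List Bool) : Bool :=
  (List.range (y.length + 1)).foldr (fun i b => W s n (y.take i) || b) false

lemma hit_iff (s n : ℕ) (y : List Bool) :
    hit W s n y = true ↔ ∃ i ≤ y.length, W s n (y.take i) = true := by
  unfold hit
  have key : ∀ l : List ℕ, l.foldr (fun i b => W s n (y.take i) || b) false = true ↔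
      ∃ i ∈ l, W s n (y.take i) = true := by
    intro l
    induction l with
    | nil => simp
    | cons a l ih => simp [ih]
  rw [key]
  constructor
  · rintro ⟨i, hi, h⟩
    exact ⟨i, by have := List.mem_range.1 hi; omega, h⟩
  · rintro ⟨i, hi, h⟩
    exact ⟨i, List.mem_range.2 (by omega), h⟩

/-- number of extensions of `x` by `m` bits that are hit -/
def cnt (m s n : ℕ) (x : List Bool) : ℕ :=
  (allS m).foldr (fun v r => bif hit W s n (x ++ v) then r + 1 else r) 0

lemma foldr_count {β : Type*} (p : β → Bool) (l : List β) :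
    l.foldr (fun v r => bif p v then r + 1 else r) 0 = l.countP p := by
  induction l with
  | nil => rfl
  | cons a l ih =>
    rw [List.foldr_cons, ih, List.countP_cons]
    cases p a <;> simp

lemma cnt_eq (m s n : ℕ) (x : List Bool) :
    cnt W m s n x = (allS m).countP fun v => hit W s n (x ++ v) := foldr_count _ _

lemma cnt_succ (m s n : ℕ) (x : List Bool) :
    cnt W (m + 1) s n x = cnt W m s n (x ++ [false]) + cnt W m s n (x ++ [true]) := by
  rw [cnt_eq, cnt_eq, cnt_eq, allS, List.countP_append, List.countP_map, List.countP_map]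
  congr 1
  · congr 1
    funext v
    simp
  · congr 1
    funext v
    simp

lemma cnt_le (m s n : ℕ) (x : List Bool) : cnt W m s n x ≤ 2 ^ m := by
  rw [cnt_eq, ← allS_length]
  exact List.countP_le_length

variable {W}

lemma hit_mono (hW : ∀ s n x, W s n x = true → W (s + 1) n x = true) {s n : ℕ} {y : List Bool}
    (h : hit W s n y = true) : hit W (s + 1) n y = true := by
  rw [hit_iff] at h ⊢
  obtain ⟨i, hi, h⟩ := h
  exact ⟨i, hi, hW _ _ _ h⟩

lemma cnt_mono (hW : ∀ s n x, W s n x = true → W (s + 1) n x = true) (m s n : ℕ)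
    (x : List Bool) : cnt W m s n x ≤ cnt W m (s + 1) n x := by
  rw [cnt_eq, cnt_eq]
  exact List.countP_mono_left fun v _ h => hit_mono hW h

lemma hit_append {s n : ℕ} {x : List Bool} (h : hit W s n x = true) (y : List Bool) :
    hit W s n (x ++ y) = true := by
  rw [hit_iff] at h ⊢
  obtain ⟨i, hi, h⟩ := h
  refine ⟨i, by simp; omega, ?_⟩
  rwa [List.take_append_of_le_length hi]

lemma cnt_of_hit {s n : ℕ} {x : List Bool} (h : hit W s n x = true) (m : ℕ) :
    cnt W m s n x = 2 ^ m := by
  rw [cnt_eq, ← allS_length, List.countP_eq_length]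
  intro v _
  exact hit_append h v

lemma two_cnt_le (m s n : ℕ) (x : List Bool) : 2 * cnt W m s n x ≤ cnt W (m + 1) s n x := by
  induction m generalizing x with
  | zero =>
    rw [cnt_succ]
    by_cases h : hit W s n x = true
    · rw [cnt_of_hit h, cnt_of_hit (hit_append h _), cnt_of_hit (hit_append h _)]
      norm_num
    · have : cnt W 0 s n x = 0 := by
        rw [cnt_eq]
        simp [allS, h]
      rw [this]
      omega
  | succ m ih =>
    rw [cnt_succ, cnt_succ W (m + 1)]
    have h1 := ih (x ++ [false])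
    have h2 := ih (x ++ [true])
    omega

/-- measure estimate -/
lemma cnt_nil_le {U : ℕ → Set (List Bool)} (hWU : ∀ s n x, W s n x = true → x ∈ U n)
    (m s n : ℕ) : (cnt W m s n [] : ENNReal) * (2⁻¹ : ENNReal) ^ m ≤
      coin (⋃ x ∈ U n, cyl x) := by
  classical
  set A : Finset (List Bool) := ((allS m).filter fun v => hit W s n ([] ++ v)).toFinset with hA
  have hcard : cnt W m s n [] = A.card := by
    rw [hA, List.toFinset_card_of_nodup ((allS_nodup m).filter _), cnt_eq,
      List.countP_eq_length_filter]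
  have hmem : ∀ v ∈ A, v.length = m ∧ hit W s n v = true := by
    intro v hv
    rw [hA, List.mem_toFinset, List.mem_filter] at hv
    exact ⟨mem_allS hv.1, by simpa using hv.2⟩
  have h1 : coin (⋃ v ∈ A, cyl v) = ∑ v ∈ A, coin (cyl v) := by
    apply measure_biUnion_finset
    · intro v hv w hw hne
      exact cyl_disjoint ((hmem v hv).1.trans (hmem w hw).1.symm) hne
    · intro v _
      exact measurableSet_cyl v
  have h2 : ∑ v ∈ A, coin (cyl v) = (A.card : ENNReal) * (2⁻¹ : ENNReal) ^ m := by
    rw [Finset.sum_congr rfl (g := fun _ => (2⁻¹ : ENNReal) ^ m)]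
    · simp
    · intro v hv
      rw [coin_cyl, (hmem v hv).1]
  rw [hcard, ← h2, ← h1]
  apply measure_mono
  intro ω hω
  simp only [Set.mem_iUnion] at hω ⊢
  obtain ⟨v, hv, hωv⟩ := hω
  obtain ⟨hlen, hhit⟩ := hmem v hv
  rw [hit_iff] at hhit
  obtain ⟨i, hi, hWi⟩ := hhit
  refine ⟨v.take i, hWU _ _ _ hWi, ?_⟩
  simp only [cyl, Set.mem_ofPred_eq] at hωv ⊢
  rw [List.length_take, min_eq_left hi, ← hωv]
  exact (pre_take ω hi).symm

end

/-! ### the semimeasure of a test -/

section

variable {W : ℕ → ℕ → List Bool → Bool}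

/-- numerator of the approximation -/
def tnum (W : ℕ → ℕ → List Bool → Bool) (x : List Bool) (s : ℕ) : ℕ :=
  (List.range s).foldr (fun k r => r + 2 ^ k * cnt W s s (2 * k + 1) x) 0

lemma foldr_sum (f : ℕ → ℕ) (s : ℕ) (a : ℕ) : (List.range s).foldr (fun k r => r + f k) a =
    a + ∑ k ∈ Finset.range s, f k := by
  induction s generalizing a with
  | zero => simp
  | succ s ih =>
    rw [List.range_succ, List.foldr_append, ih, Finset.sum_range_succ]
    simp
    ring

lemma tnum_eq (x : List Bool) (s : ℕ) :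
    tnum W x s = ∑ k ∈ Finset.range s, 2 ^ k * cnt W s s (2 * k + 1) x := by
  rw [tnum, foldr_sum (fun k => 2 ^ k * cnt W s s (2 * k + 1) x)]; simp

/-- approximation -/
noncomputable def tR (W : ℕ → ℕ → List Bool → Bool) (x : List Bool) (s : ℕ) : ℝ :=
  (tnum W x s : ℝ) / 2 ^ (s + x.length)

lemma tR_mono (hW : ∀ s n x, W s n x = true → W (s + 1) n x = true) (x : List Bool) :
    Monotone fun s => tR W x s := by
  apply monotone_nat_of_le_succ
  intro s
  unfold tR
  rw [div_le_div_iff₀ (by positivity) (by positivity)]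
  have h1 : 2 * tnum W x s ≤ tnum W x (s + 1) := by
    rw [tnum_eq, tnum_eq, Finset.sum_range_succ, Finset.mul_sum]
    have : ∑ k ∈ Finset.range s, 2 * (2 ^ k * cnt W s s (2 * k + 1) x) ≤
        ∑ k ∈ Finset.range s, 2 ^ k * cnt W (s + 1) (s + 1) (2 * k + 1) x := by
      apply Finset.sum_le_sum
      intro k _
      have h2 := (two_cnt_le s s (2 * k + 1) x).trans (cnt_mono hW (s + 1) s (2 * k + 1) x)
      calc 2 * (2 ^ k * cnt W s s (2 * k + 1) x) = 2 ^ k * (2 * cnt W s s (2 * k + 1) x) := by ring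
        _ ≤ _ := Nat.mul_le_mul_left _ h2
    omega
  have h2 : (2 : ℝ) * tnum W x s ≤ tnum W x (s + 1) := by exact_mod_cast h1
  have h3 : (0 : ℝ) < 2 ^ (s + x.length) := by positivity
  have e : s + 1 + x.length = (s + x.length) + 1 := by ring
  rw [e, pow_succ]
  nlinarith

lemma tR_split (hW : ∀ s n x, W s n x = true → W (s + 1) n x = true) (x : List Bool) (s : ℕ) :
    tR W (x ++ [false]) s + tR W (x ++ [true]) s ≤ tR W x (s + 1) := by
  unfold tR
  have e1 : s + (x ++ [false]).length = s + 1 + x.length := by simp; ring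
  have e2 : s + (x ++ [true]).length = s + 1 + x.length := by simp; ring
  rw [e1, e2, ← add_div]
  apply div_le_div_of_nonneg_right _ (by positivity)
  have h1 : tnum W (x ++ [false]) s + tnum W (x ++ [true]) s ≤ tnum W x (s + 1) := by
    rw [tnum_eq, tnum_eq, tnum_eq, Finset.sum_range_succ, ← Finset.sum_add_distrib]
    refine le_trans ?_ (Nat.le_add_right _ _)
    apply Finset.sum_le_sum
    intro k _
    rw [← mul_add, ← cnt_succ]
    exact Nat.mul_le_mul_left _ (cnt_mono hW _ _ _ _)
  exact_mod_cast h1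

lemma tR_nonneg (x : List Bool) (s : ℕ) : 0 ≤ tR W x s := by unfold tR; positivity

lemma tR_nil_le {U : ℕ → Set (List Bool)} (hU : IsMLTest U)
    (hWU : ∀ s n x, W s n x = true → x ∈ U n) (s : ℕ) : tR W [] s ≤ 1 := by
  have h1 : ∀ n, (cnt W s s n [] : ℝ) / 2 ^ s ≤ (1 / 2) ^ n := by
    intro n
    have h2 := (cnt_nil_le hWU s s n).trans (hU.meas n)
    have h3 : (cnt W s s n [] : ENNReal) * (2⁻¹ : ENNReal) ^ s =
        ENNReal.ofReal ((cnt W s s n [] : ℝ) / 2 ^ s) := by
      rw [div_eq_mul_inv, ENNReal.ofReal_mul (by positivity), ENNReal.ofReal_natCast,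
        ← inv_pow, ENNReal.ofReal_pow (by positivity), ENNReal.ofReal_inv_of_pos (by norm_num)]
      norm_num
    rw [h3] at h2
    exact (ENNReal.ofReal_le_ofReal_iff (by positivity)).1 h2
  have h2 : tR W [] s = ∑ k ∈ Finset.range s, 2 ^ k * ((cnt W s s (2 * k + 1) [] : ℝ) / 2 ^ s) := by
    unfold tR
    rw [tnum_eq]
    push_cast
    rw [Finset.sum_div]
    apply Finset.sum_congr rfl
    intro k _
    simp only [List.length_nil, add_zero]
    ring
  rw [h2]
  have h3 : ∀ N, ∑ k ∈ Finset.range N, (2 : ℝ) ^ k * ((cnt W s s (2 * k + 1) [] : ℝ) / 2 ^ s) ≤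
      1 - (1 / 2) ^ N := by
    intro N
    induction N with
    | zero => simp
    | succ N ih =>
      rw [Finset.sum_range_succ]
      have h4 := mul_le_mul_of_nonneg_left (h1 (2 * N + 1)) (by positivity : (0 : ℝ) ≤ 2 ^ N)
      have h5 : (2 : ℝ) ^ N * (1 / 2) ^ (2 * N + 1) = (1 / 2) ^ N * (1 / 2) := by
        rw [pow_succ, pow_mul, one_div_pow, one_div_pow, one_div_pow]
        have h6 : ((2 : ℝ) ^ 2) ^ N = 2 ^ N * 2 ^ N := by
          rw [← mul_pow]; norm_num
        rw [h6]
        field_simp
      rw [pow_succ]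
      linarith
  have h4 : (0 : ℝ) ≤ (1 / 2) ^ s := by positivity
  linarith [h3 s]

lemma tR_le_one {U : ℕ → Set (List Bool)} (hU : IsMLTest U)
    (hW : ∀ s n x, W s n x = true → W (s + 1) n x = true)
    (hWU : ∀ s n x, W s n x = true → x ∈ U n) (x : List Bool) : ∀ s, tR W x s ≤ 1 := by
  induction x using List.reverseRecOn with
  | nil => exact tR_nil_le hU hWU
  | append_singleton x b ih =>
    intro s
    have h1 := tR_split hW x s
    have h2 := ih (s + 1)
    have h3 := tR_nonneg (W := W) (x ++ [false]) s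
    have h4 := tR_nonneg (W := W) (x ++ [true]) s
    cases b <;> linarith

/-- the semimeasure of a test -/
noncomputable def tnu (W : ℕ → ℕ → List Bool → Bool) (x : List Bool) : ℝ := ⨆ s, tR W x s

lemma tnu_tendsto {U : ℕ → Set (List Bool)} (hU : IsMLTest U)
    (hW : ∀ s n x, W s n x = true → W (s + 1) n x = true)
    (hWU : ∀ s n x, W s n x = true → x ∈ U n) (x : List Bool) :
    Tendsto (fun s => tR W x s) atTop (𝓝 (tnu W x)) := by
  apply tendsto_atTop_ciSup (tR_mono hW x)
  refine ⟨1, ?_⟩
  rintro _ ⟨s, rfl⟩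
  exact tR_le_one hU hW hWU x s

lemma tnu_semimeasure {U : ℕ → Set (List Bool)} (hU : IsMLTest U)
    (hW : ∀ s n x, W s n x = true → W (s + 1) n x = true)
    (hWU : ∀ s n x, W s n x = true → x ∈ U n) : IsSemimeasure (tnu W) := by
  constructor
  · intro x
    exact ge_of_tendsto' (tnu_tendsto hU hW hWU x) fun s => tR_nonneg _ _
  · exact le_of_tendsto' (tnu_tendsto hU hW hWU []) fun s => tR_le_one hU hW hWU [] s
  · intro x
    have h1 : Tendsto (fun s => tR W x (s + 1)) atTop (𝓝 (tnu W x)) :=
      (tnu_tendsto hU hW hWU x).comp (tendsto_add_atTop_nat 1)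
    exact le_of_tendsto_of_tendsto' ((tnu_tendsto hU hW hWU _).add (tnu_tendsto hU hW hWU _))
      h1 fun s => tR_split hW x s

/-! ### computability -/

lemma prim_allS : Primrec allS := by
  have h : Primrec fun m : ℕ => Nat.rec (motive := fun _ => List (List Bool)) [[]]
      (fun _ IH => IH.map (List.cons false) ++ IH.map (List.cons true)) m := by
    refine Primrec.nat_rec₁ (f := fun _ IH => IH.map (List.cons false) ++ IH.map (List.cons true))
      [[]] ?_
    refine Primrec₂.mk ?_
    refine Primrec.list_append.comp (Primrec.list_map Primrec.snd ?_)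
      (Primrec.list_map Primrec.snd ?_)
    · exact Primrec₂.mk (Primrec.list_cons.comp (Primrec.const false) Primrec.snd)
    · exact Primrec₂.mk (Primrec.list_cons.comp (Primrec.const true) Primrec.snd)
  refine h.of_eq fun m => ?_
  induction m with
  | zero => rfl
  | succ m ih => simp only [allS]; rw [← ih]

lemma prim_hit {α : Type*} [Primcodable α] {s n : α → ℕ} {y : α → List Bool}
    (hW : Primrec fun z : ℕ × ℕ × List Bool => W z.1 z.2.1 z.2.2)
    (hs : Primrec s) (hn : Primrec n) (hy : Primrec y) :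
    Primrec fun a => hit W (s a) (n a) (y a) := by
  unfold hit
  refine Primrec.list_foldr (h := fun a (p : ℕ × Bool) => W (s a) (n a) ((y a).take p.1) || p.2)
    (Primrec.list_range.comp (prim_add (prim_length hy) (Primrec.const 1)))
    (Primrec.const false) ?_
  refine Primrec₂.mk ?_
  refine Primrec.or.comp ?_ (Primrec.snd.comp Primrec.snd)
  exact hW.comp (Primrec.pair (hs.comp Primrec.fst) (Primrec.pair (hn.comp Primrec.fst)
    (prim_take (Primrec.fst.comp Primrec.snd) (hy.comp Primrec.fst))))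

lemma prim_cnt {α : Type*} [Primcodable α] {m s n : α → ℕ} {x : α → List Bool}
    (hW : Primrec fun z : ℕ × ℕ × List Bool => W z.1 z.2.1 z.2.2)
    (hm : Primrec m) (hs : Primrec s) (hn : Primrec n) (hx : Primrec x) :
    Primrec fun a => cnt W (m a) (s a) (n a) (x a) := by
  unfold cnt
  refine Primrec.list_foldr (h := fun a (p : List Bool × ℕ) =>
    bif hit W (s a) (n a) (x a ++ p.1) then p.2 + 1 else p.2) (prim_allS.comp hm)
    (Primrec.const 0) ?_
  refine Primrec₂.mk ?_
  refine Primrec.cond ?_ (prim_add (Primrec.snd.comp Primrec.snd) (Primrec.const 1))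
    (Primrec.snd.comp Primrec.snd)
  exact prim_hit hW (hs.comp Primrec.fst) (hn.comp Primrec.fst)
    (Primrec.list_append.comp (hx.comp Primrec.fst) (Primrec.fst.comp Primrec.snd))

lemma prim_tnum (hW : Primrec fun z : ℕ × ℕ × List Bool => W z.1 z.2.1 z.2.2) :
    Primrec fun a : List Bool × ℕ => tnum W a.1 a.2 := by
  unfold tnum
  refine Primrec.list_foldr (h := fun (a : List Bool × ℕ) (p : ℕ × ℕ) =>
    p.2 + 2 ^ p.1 * cnt W a.2 a.2 (2 * p.1 + 1) a.1)
    (Primrec.list_range.comp Primrec.snd) (Primrec.const 0) ?_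
  refine Primrec₂.mk ?_
  have hk : Primrec fun z : (List Bool × ℕ) × (ℕ × ℕ) => z.2.1 := Primrec.fst.comp Primrec.snd
  have hs : Primrec fun z : (List Bool × ℕ) × (ℕ × ℕ) => z.1.2 := Primrec.snd.comp Primrec.fst
  have hx : Primrec fun z : (List Bool × ℕ) × (ℕ × ℕ) => z.1.1 := Primrec.fst.comp Primrec.fst
  refine prim_add (Primrec.snd.comp Primrec.snd) (prim_mul (prim_two_pow hk) ?_)
  exact prim_cnt hW hs hs (prim_add (prim_mul (Primrec.const 2) hk) (Primrec.const 1)) hx

lemma tnu_lsc {U : ℕ → Set (List Bool)} (hU : IsMLTest U)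
    (hW : ∀ s n x, W s n x = true → W (s + 1) n x = true)
    (hWU : ∀ s n x, W s n x = true → x ∈ U n)
    (hWp : Primrec fun z : ℕ × ℕ × List Bool => W z.1 z.2.1 z.2.2) :
    LowerSemicomputable (tnu W) := by
  have key : ∀ x s, (((Int.ofNat (tnum W x s) : ℤ) : ℝ)) / ((2 ^ (s + x.length) : ℕ) : ℝ) =
      tR W x s := by
    intro x s
    unfold tR
    simp
  refine ⟨fun x s => Int.ofNat (tnum W x s), fun x s => 2 ^ (s + x.length), ?_, ?_, ?_, ?_, ?_⟩
  · exact (prim_ofNat.comp (prim_tnum hWp)).to_comp.to₂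
  · exact (prim_two_pow (prim_add (Primrec.snd (α := List Bool) (β := ℕ))
      (prim_length Primrec.fst))).to_comp.to₂
  · intro x s; positivity
  · intro x
    have := tR_mono hW x
    convert this using 2 with t
    exact key x t
  · intro x
    have := tnu_tendsto hU hW hWU x
    convert this using 2 with t
    exact key x t

lemma le_tnu {U : ℕ → Set (List Bool)} (hU : IsMLTest U)
    (hW : ∀ s n x, W s n x = true → W (s + 1) n x = true)
    (hWU : ∀ s n x, W s n x = true → x ∈ U n) {s k : ℕ} {x : List Bool}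
    (h : W s (2 * k + 1) x = true) : 2 ^ k * wt x ≤ tnu W x := by
  refine ge_of_tendsto (tnu_tendsto hU hW hWU x) ?_
  filter_upwards [eventually_ge_atTop (max s (k + 1))] with t ht
  have h1 : s ≤ t := le_trans (le_max_left _ _) ht
  have h2 : k < t := lt_of_lt_of_le (Nat.lt_succ_self k) (le_trans (le_max_right _ _) ht)
  have h3 : W t (2 * k + 1) x = true := by
    induction t, h1 using Nat.le_induction with
    | base => exact h
    | succ t ht' ih =>
      rcases Nat.lt_or_ge k t with h4 | h4
      · exact hW _ _ _ (ih (max_le ht' h4) h4)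
      · have : ∀ u, s ≤ u → W u (2 * k + 1) x = true := by
          intro u hu
          induction u, hu using Nat.le_induction with
          | base => exact h
          | succ u _ ih' => exact hW _ _ _ ih'
        exact this _ (by omega)
  have h4 : hit W t (2 * k + 1) x = true := by
    rw [hit_iff]
    exact ⟨x.length, le_rfl, by simpa using h3⟩
  have h5 : 2 ^ k * 2 ^ t ≤ tnum W x t := by
    rw [tnum_eq]
    have := Finset.single_le_sum (f := fun k => 2 ^ k * cnt W t t (2 * k + 1) x)
      (fun j _ => Nat.zero_le _) (Finset.mem_range.2 h2)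
    rwa [cnt_of_hit h4] at this
  unfold tR wt
  rw [le_div_iff₀ (by positivity)]
  have h6 : (2 : ℝ) ^ k * 2 ^ t ≤ tnum W x t := by exact_mod_cast h5
  have h7 : (1 / 2 : ℝ) ^ x.length * 2 ^ x.length = 1 := by
    rw [← mul_pow]; norm_num
  rw [pow_add]
  calc (2 : ℝ) ^ k * (1 / 2) ^ x.length * (2 ^ t * 2 ^ x.length) =
      2 ^ k * 2 ^ t * ((1 / 2 : ℝ) ^ x.length * 2 ^ x.length) := by ring
    _ = 2 ^ k * 2 ^ t := by rw [h7, mul_one]
    _ ≤ _ := h6

end

/-- stage enumeration of an r.e. predicate -/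
lemma exists_stages {U : ℕ → Set (List Bool)} (hU : REPred fun p : ℕ × List Bool => p.2 ∈ U p.1) :
    ∃ W : ℕ → ℕ → List Bool → Bool,
      (Primrec fun z : ℕ × ℕ × List Bool => W z.1 z.2.1 z.2.2) ∧
      (∀ s n x, W s n x = true → W (s + 1) n x = true) ∧
      (∀ n x, x ∈ U n ↔ ∃ s, W s n x = true) := by
  obtain ⟨c, hc⟩ := Nat.Partrec.Code.exists_code.1 hU
  refine ⟨fun s n x => (Nat.Partrec.Code.evaln s c (Encodable.encode (n, x))).isSome, ?_, ?_, ?_⟩
  · refine Primrec.option_isSome.comp ?_
    exact Nat.Partrec.Code.primrec_evaln.comp (Primrec.pair (Primrec.pair Primrec.fst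
      (Primrec.const c)) (Primrec.encode.comp Primrec.snd))
  · intro s n x h
    simp only [Option.isSome_iff_exists] at h ⊢
    obtain ⟨a, ha⟩ := h
    exact ⟨a, Nat.Partrec.Code.evaln_mono (Nat.le_succ s) ha⟩
  · intro n x
    have h1 : (Nat.Partrec.Code.eval c (Encodable.encode (n, x))).Dom ↔ x ∈ U n := by
      rw [hc]
      simp only [Encodable.encodek, Part.coe_some, Part.bind_some]
      constructor
      · rintro ⟨h, _⟩
        exact h
      · intro h
        exact ⟨h, trivial⟩
    rw [← h1, Part.dom_iff_mem]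
    constructor
    · rintro ⟨a, ha⟩
      obtain ⟨s, hs⟩ := Nat.Partrec.Code.evaln_complete.1 ha
      exact ⟨s, by simp only [Option.isSome_iff_exists]; exact ⟨a, hs⟩⟩
    · rintro ⟨s, hs⟩
      simp only [Option.isSome_iff_exists] at hs
      obtain ⟨a, ha⟩ := hs
      exact ⟨a, Nat.Partrec.Code.evaln_sound ha⟩

/-- Bounded sequences are random. -/
theorem mlrandom_of_bounded (M : List Bool → ℝ) (hM : IsUniversal M) (ω : ℕ → Bool) (C : ℝ)
    (h : ∀ n, M (pre ω n) ≤ C * (1 / 2 : ℝ) ^ n) : MLRandom ω := by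
  intro U hU
  by_contra hcon
  push Not at hcon
  obtain ⟨W, hWp, hW, hWU⟩ := exists_stages hU.re
  have hWU' : ∀ s n x, W s n x = true → x ∈ U n := fun s n x h => (hWU n x).2 ⟨s, h⟩
  obtain ⟨c, hc, hdom⟩ := hM.2.2 _ (tnu_semimeasure hU hW hWU') (tnu_lsc hU hW hWU' hWp)
  obtain ⟨k, hk⟩ := pow_unbounded_of_one_lt (C / c) (by norm_num : (1 : ℝ) < 2)
  have h1 := hcon (2 * k + 1)
  simp only [Set.mem_iUnion] at h1
  obtain ⟨x, hx, hωx⟩ := h1
  obtain ⟨s, hs⟩ := (hWU _ _).1 hx
  have h2 := le_tnu hU hW hWU' hs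
  have h3 := hdom x
  have h4 := h x.length
  simp only [cyl, Set.mem_ofPred_eq] at hωx
  rw [hωx] at h4
  have h5 : (0 : ℝ) < (1 / 2) ^ x.length := by positivity
  have h6 : C < c * 2 ^ k := by
    rw [div_lt_iff₀ hc] at hk; linarith
  have h7 : c * (2 ^ k * wt x) ≤ c * tnu W x := mul_le_mul_of_nonneg_left h2 hc.le
  have h8 : C * (1 / 2 : ℝ) ^ x.length < c * 2 ^ k * (1 / 2) ^ x.length :=
    mul_lt_mul_of_pos_right h6 h5
  have h9 : c * (2 ^ k * wt x) = c * 2 ^ k * (1 / 2) ^ x.length := by unfold wt; ring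
  linarith

end Pool.Agent.SemConv
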